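import Pool.Agent.Q284.ZC.Cyc

/-!
# The class of a closed point in the class group of the coordinate ring
-/

set_option autoImplicit false

open WeierstrassCurve Polynomial IntermediateField nonZeroDivisors

namespace Pool.Agent.Q284.ZC

open Pool.Agent.H437R2.Man.MW (crv crv_eqn crv_nonsing)

open Pool.Agent.Q284.FDQ (vl vl_zero vl_some vl_root vl_ne vl_prod sq_third)

section

variable {R : Type} [CommRing R] [IsDomain R]

open Classical in
/-- the class of an invertible ideal in the class group -/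
noncomputable def cl (I : Ideal R) : ClassGroup R :=
  if h : IsUnit (I : FractionalIdeal R⁰ (FractionRing R)) then
    ClassGroup.mk (FractionRing R) h.unit else 1

lemma isUnit_of_mul {I J : Ideal R} {F : R} (hF : F ≠ 0) (h : I * J = Ideal.span {F}) :
    IsUnit (I : FractionalIdeal R⁰ (FractionRing R)) := by
  have h1 : (I : FractionalIdeal R⁰ (FractionRing R)) *
      ((J : FractionalIdeal R⁰ (FractionRing R)) *
        ((Ideal.span {F} : Ideal R) : FractionalIdeal R⁰ (FractionRing R))⁻¹) = 1 := by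
    rw [← mul_assoc, ← FractionalIdeal.coeIdeal_mul, h,
      FractionalIdeal.coe_ideal_span_singleton_mul_inv _ hF]
  exact IsUnit.of_mul_eq_one _ h1

lemma cl_mul {I J : Ideal R} {F : R} (hF : F ≠ 0) (h : I * J = Ideal.span {F})
    (u : (FractionalIdeal R⁰ (FractionRing R))ˣ)
    (hu : (u : FractionalIdeal R⁰ (FractionRing R)) = J) :
    cl I * ClassGroup.mk (FractionRing R) u = 1 := by
  have hI := isUnit_of_mul hF h
  unfold cl
  rw [dif_pos hI, ← map_mul]
  refine (ClassGroup.mk_eq_one_of_coe_ideal (I' := I * J) ?_).2 ⟨F, hF, h⟩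
  rw [Units.val_mul, IsUnit.unit_spec, hu, FractionalIdeal.coeIdeal_mul]

lemma cl_span {I : Ideal R} {F : R} (hF : F ≠ 0) (h : I = Ideal.span {F}) :
    IsUnit (I : FractionalIdeal R⁰ (FractionRing R)) ∧ cl I = 1 := by
  have h1 : I * ⊤ = Ideal.span {F} := by rw [Ideal.mul_top, h]
  refine ⟨isUnit_of_mul hF h1, ?_⟩
  have := cl_mul hF h1 1 (by simp)
  rwa [map_one, mul_one] at this

end

section

variable {K : Type} [Field K]

/-- equal dimensions -/
lemma eq_of_finrank {R : Type} [CommRing R] [Algebra K R] {I J : Ideal R} (h : I ≤ J)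
    (h0 : Module.finrank K (R ⧸ I) ≠ 0)
    (hd : Module.finrank K (R ⧸ I) = Module.finrank K (R ⧸ J)) : I = J := by
  refine le_antisymm h fun x hx => ?_
  haveI : Module.Finite K (R ⧸ I) := Module.finite_of_finrank_pos (Nat.pos_of_ne_zero h0)
  have hs : Function.Surjective (Ideal.Quotient.factorₐ K h) := Ideal.Quotient.factor_surjective h
  haveI : Module.Finite K (R ⧸ J) := Module.Finite.of_surjective
    (Ideal.Quotient.factorₐ K h).toLinearMap hs
  have hi := (LinearMap.injective_iff_surjective_of_finrank_eq_finrank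
    (f := (Ideal.Quotient.factorₐ K h).toLinearMap) hd).2 hs
  rw [← Ideal.Quotient.eq_zero_iff_mem]
  apply hi
  show Ideal.Quotient.factorₐ K h (Ideal.Quotient.mk I x) = Ideal.Quotient.factorₐ K h 0
  rw [map_zero]
  show Ideal.Quotient.factor h (Ideal.Quotient.mk I x) = 0
  rw [Ideal.Quotient.factor_mk]
  exact Ideal.Quotient.eq_zero_iff_mem.2 hx

/-- the product of two coprime ideals -/
lemma mul_of_finrank {R : Type} [CommRing R] [Algebra K R] {I M N : Ideal R} (hM : I ≤ M)
    (hN : I ≤ N) (hc : M ⊔ N = ⊤) (h0 : Module.finrank K (R ⧸ I) ≠ 0)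
    (hfM : Module.Finite K (R ⧸ M)) (hfN : Module.Finite K (R ⧸ N))
    (hd : Module.finrank K (R ⧸ I) = Module.finrank K (R ⧸ M) + Module.finrank K (R ⧸ N)) :
    M * N = I := by
  rw [Ideal.mul_eq_inf_of_coprime hc]
  refine le_antisymm (fun x hx => ?_) (le_inf hM hN)
  haveI : Module.Finite K (R ⧸ I) := Module.finite_of_finrank_pos (Nat.pos_of_ne_zero h0)
  let φ : (R ⧸ I) →ₗ[K] (R ⧸ M) × (R ⧸ N) :=
    (Ideal.Quotient.factorₐ K hM).toLinearMap.prod (Ideal.Quotient.factorₐ K hN).toLinearMap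
  have hφ : ∀ r : R, φ (Ideal.Quotient.mk I r) =
      (Ideal.Quotient.mk M r, Ideal.Quotient.mk N r) := fun r => rfl
  have hs : Function.Surjective φ := by
    rintro ⟨a, b⟩
    obtain ⟨a, rfl⟩ := Ideal.Quotient.mk_surjective a
    obtain ⟨b, rfl⟩ := Ideal.Quotient.mk_surjective b
    obtain ⟨i, hi, j, hj, hij⟩ := Submodule.mem_sup.1 (hc ▸ Submodule.mem_top : (1 : R) ∈ M ⊔ N)
    refine ⟨Ideal.Quotient.mk I (a * j + b * i), ?_⟩
    rw [hφ]
    congr 1
    · rw [Ideal.Quotient.eq]
      have : a * j + b * i - a = (b - a) * i := by linear_combination a * hij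
      rw [this]
      exact M.mul_mem_left _ hi
    · rw [Ideal.Quotient.eq]
      have : a * j + b * i - b = (a - b) * j := by linear_combination b * hij
      rw [this]
      exact N.mul_mem_left _ hj
  have hi := (LinearMap.injective_iff_surjective_of_finrank_eq_finrank (f := φ)
    (by rw [Module.finrank_prod, hd])).2 hs
  rw [← Ideal.Quotient.eq_zero_iff_mem]
  apply hi
  rw [hφ, map_zero, Ideal.Quotient.eq_zero_iff_mem.2 hx.1, Ideal.Quotient.eq_zero_iff_mem.2 hx.2]
  rfl

end

section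

variable {K L : Type} [Field K] [CharZero K] [Field L] [Algebra K L] [FiniteDimensional K L]

open Classical in
/-- the point of an extension generated by its abscissa, with the function -/
theorem rr' {W : WeierstrassCurve K} {e1 e2 e3 : K} (hW : W = crv (-e1) (-e2) (-e3))
    (h12 : e1 ≠ e2) (h13 : e1 ≠ e3) (h23 : e2 ≠ e3) {θ η : L}
    (hη : η ^ 2 = (θ - algebraMap K L e1) * (θ - algebraMap K L e2) * (θ - algebraMap K L e3))
    (hd : (minpoly K θ).natDegree = Module.finrank K L) (h2 : 2 ≤ Module.finrank K L) :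
    ∃ (A B : K[X]) (Q : W.toAffine.Point), (A ≠ 0 ∨ B ≠ 0) ∧ aeval θ A + aeval θ B * η = 0 ∧
      Cls e1 e2 e3 Q
      ((-1) ^ (minpoly K θ).natDegree * (minpoly K θ).eval e1)
      ((-1) ^ (minpoly K θ).natDegree * (minpoly K θ).eval e2)
      ((-1) ^ (minpoly K θ).natDegree * (minpoly K θ).eval e3) ∧
      ((Q = 0 ∧ (A ^ 2 - (X - C e1) * (X - C e2) * (X - C e3) * B ^ 2).natDegree =
        Module.finrank K L) ∨
      ∃ (x0 y0 : K) (hn : W.toAffine.Nonsingular x0 y0), Q = Affine.Point.some x0 y0 hn ∧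
        A.eval x0 - B.eval x0 * y0 = 0 ∧
        (A ^ 2 - (X - C e1) * (X - C e2) * (X - C e3) * B ^ 2).natDegree =
        Module.finrank K L + 1) := by
  set f : K[X] := (X - C e1) * (X - C e2) * (X - C e3) with hf
  have hηf : η ^ 2 = aeval θ f := by
    rw [hη, hf]
    simp
  have hirr : Irreducible (minpoly K θ) := minpoly.irreducible (Algebra.IsIntegral.isIntegral θ)
  have hroot : ∀ x : K, (minpoly K θ).eval x ≠ 0 := by
    intro x hx
    have h3 : (minpoly K θ).degree = 1 := degree_eq_one_of_irreducible_of_root hirr (IsRoot.def.2 hx)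
    have h4 : (minpoly K θ).natDegree = 1 := natDegree_eq_of_degree_eq_some h3
    omega
  have hpm : (minpoly K θ).Monic := minpoly.monic (Algebra.IsIntegral.isIntegral θ)
  obtain ⟨A, B, hne, h0, l, h, hl, t, ht, hlead, hdn⟩ : ∃ A B : K[X], (A ≠ 0 ∨ B ≠ 0) ∧
      aeval θ A + aeval θ B * η = 0 ∧ ∃ l : K[X], A ^ 2 - f * B ^ 2 = minpoly K θ * l ∧
      l.natDegree ≤ 1 ∧ ∃ t : K, t ≠ 0 ∧
        l.leadingCoeff = (-1) ^ (Module.finrank K L + l.natDegree) * t ^ 2 ∧
        (A ^ 2 - f * B ^ 2).natDegree = Module.finrank K L + l.natDegree := by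
    set d := Module.finrank K L with hdd
    have hd0 : 0 < d := Module.finrank_pos
    obtain ⟨A, B, hne, hA, hB, h0⟩ := exists_AB (K := K) θ η ((d + 1) / 2 + 1) (d / 2) (by omega)
    have h1 : aeval θ (A ^ 2 - f * B ^ 2) = 0 := by
      rw [map_sub, map_mul, map_pow, map_pow, ← hηf]
      linear_combination (aeval θ A - aeval θ B * η) * h0
    obtain ⟨l, hl⟩ := minpoly.dvd K θ h1
    have hA' : 2 * A.natDegree ≤ d + 1 := by
      by_cases hA0 : A = 0
      · rw [hA0, natDegree_zero]; omega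
      · have := (natDegree_lt_iff_degree_lt hA0).2 hA
        omega
    have hB' : B ≠ 0 → 3 + 2 * B.natDegree ≤ d + 1 := by
      intro hB0
      have := (natDegree_lt_iff_degree_lt hB0).2 hB
      omega
    obtain ⟨g1, g2, t, g3, g4⟩ := lead (cubic_monic e1 e2 e3) (cubic_deg e1 e2 e3) hne hA' hB'
    have hl0 : l ≠ 0 := by
      rintro rfl
      rw [mul_zero] at hl
      exact g1 hl
    have hdeg : (A ^ 2 - f * B ^ 2).natDegree = d + l.natDegree := by
      rw [hl, natDegree_mul hpm.ne_zero hl0, hd]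
    refine ⟨A, B, hne, h0, l, hl, ?_, t, g3, ?_, hdeg⟩
    · have : (A ^ 2 - f * B ^ 2).natDegree ≤ d + 1 := g2
      omega
    · rw [← hdeg, ← g4, hl, leadingCoeff_mul, hpm.leadingCoeff, one_mul]
  obtain ⟨p, hp⟩ : ∃ p : K[X], p = minpoly K θ := ⟨_, rfl⟩
  rw [← hp] at h hirr hroot hd ⊢
  set d := Module.finrank K L with hdd
  rw [hd]
  have hfe : ∀ x, f.eval x = (x - e1) * (x - e2) * (x - e3) := by
    intro x
    rw [hf]; simp
  have hev : ∀ x, (A.eval x) ^ 2 - f.eval x * (B.eval x) ^ 2 = p.eval x * l.eval x := by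
    intro x
    have := congrArg (eval x) h
    simpa using this
  -- the product of the norms
  have hprod : IsSquare ((-1) ^ d * p.eval e1 * ((-1) ^ d * p.eval e2) *
      ((-1) ^ d * p.eval e3)) := by
    have hN := congrArg (Algebra.norm K) hη
    rw [map_mul, map_mul, map_pow, norm_sub, norm_sub, norm_sub, ← hp, hd, ← hdd,
      Nat.div_self (by omega), pow_one, pow_one, pow_one] at hN
    exact ⟨Algebra.norm K η, by rw [← hN]; ring⟩
  have hs0 : ((-1 : K) ^ d) ≠ 0 := pow_ne_zero _ (by norm_num)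
  rcases Nat.le_one_iff_eq_zero_or_eq_one.1 hl with hl0 | hl1
  · -- no further zero
    obtain ⟨c, hc⟩ := natDegree_eq_zero.1 hl0
    have hc' : c = (-1) ^ d * t ^ 2 := by
      rw [hl0, add_zero, ← hc, leadingCoeff_C] at hlead
      exact hlead
    have key : ∀ x, f.eval x = 0 → IsSquare ((-1) ^ d * p.eval x) := by
      intro x hx
      have h3 := hev x
      rw [hx, ← hc, eval_C, hc'] at h3
      refine ⟨A.eval x / t, ?_⟩
      field_simp
      linear_combination -h3
    refine ⟨A, B, 0, hne, h0, cls_zero (key e1 ?_) (key e2 ?_) (key e3 ?_), Or.inl ⟨rfl, ?_⟩⟩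
    · rw [hfe]; ring
    · rw [hfe]; ring
    · rw [hfe]; ring
    · rw [hdn, hl0, add_zero]
  · -- one more zero
    obtain ⟨c, b, hc0, hcb⟩ : ∃ c b : K, c ≠ 0 ∧ l = C c * X + C b := by
      obtain ⟨c, b, h4⟩ := exists_eq_X_add_C_of_natDegree_le_one hl1.le
      refine ⟨c, b, ?_, h4⟩
      rintro rfl
      rw [h4] at hl1
      simp at hl1
    have hcl : c = (-1) ^ (d + 1) * t ^ 2 := by
      rw [hl1] at hlead
      rw [← hlead, hcb, leadingCoeff_linear hc0]
    obtain ⟨x0, hx0⟩ : ∃ x0 : K, x0 = -b / c := ⟨_, rfl⟩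
    have hle : ∀ x, l.eval x = c * (x - x0) := by
      intro x
      rw [hcb, hx0]
      simp
      field_simp
      ring
    have hl' : l = C c * (X - C x0) := by
      rw [hcb, hx0, mul_sub, ← C_mul]
      have : c * (-b / c) = -b := by field_simp
      rw [this, C_neg]
      ring
    have hc' : c = -((-1) ^ d * t ^ 2) := by
      rw [hcl, pow_succ]; ring
    -- the values at the roots
    have key : ∀ x, f.eval x = 0 → IsSquare ((x0 - x) * ((-1) ^ d * p.eval x)) := by
      intro x hx
      have h3 := hev x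
      rw [hx, hle, hc'] at h3
      refine ⟨A.eval x / t, ?_⟩
      field_simp
      linear_combination -h3
    have hB0 : B.eval x0 ≠ 0 := by
      intro hB
      have h3 := hev x0
      rw [hle, hB, sub_self] at h3
      have hA : A.eval x0 = 0 := by
        have : A.eval x0 ^ 2 = 0 := by linear_combination h3
        exact pow_eq_zero_iff two_ne_zero |>.1 this
      obtain ⟨A', hA'⟩ := dvd_iff_isRoot.2 (IsRoot.def.2 hA)
      obtain ⟨B', hB'⟩ := dvd_iff_isRoot.2 (IsRoot.def.2 hB)
      rw [hA', hB', hl'] at h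
      have h4 : (X - C x0) * (A' ^ 2 - f * B' ^ 2) = p * C c := by
        apply mul_left_cancel₀ (X_sub_C_ne_zero x0)
        linear_combination h
      have h5 := congrArg (eval x0) h4
      simp at h5
      rcases h5 with h5 | h5
      · exact hroot x0 h5
      · exact hc0 h5
    have hy : (A.eval x0 / B.eval x0) ^ 2 = (x0 - e1) * (x0 - e2) * (x0 - e3) := by
      have h3 := hev x0
      rw [hle, sub_self, hfe] at h3
      field_simp
      linear_combination h3
    have hns := mk_pt hW h12 h13 h23 hy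
    have hg : ∀ x, (-1) ^ d * p.eval x ≠ 0 := fun x => mul_ne_zero hs0 (hroot x)
    have hfi : f.eval e1 = 0 ∧ f.eval e2 = 0 ∧ f.eval e3 = 0 := by
      rw [hfe, hfe, hfe]
      refine ⟨?_, ?_, ?_⟩ <;> ring
    have hv := vl_prod hW h12 h13 h23 (Affine.Point.some _ _ hns)
    have c1 : (e1 - e2) * (e1 - e3) ≠ 0 := mul_ne_zero (sub_ne_zero.2 h12) (sub_ne_zero.2 h13)
    have c2 : (e2 - e1) * (e2 - e3) ≠ 0 :=
      mul_ne_zero (sub_ne_zero.2 h12.symm) (sub_ne_zero.2 h23)
    have c3 : (e3 - e1) * (e3 - e2) ≠ 0 :=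
      mul_ne_zero (sub_ne_zero.2 h13.symm) (sub_ne_zero.2 h23.symm)
    have v1 := vl_ne (W := W) (Affine.Point.some _ _ hns) (e := e1) c1
    have v2 := vl_ne (W := W) (Affine.Point.some _ _ hns) (e := e2) c2
    have v3 := vl_ne (W := W) (Affine.Point.some _ _ hns) (e := e3) c3
    have key' : ∀ x c, f.eval x = 0 → x0 - x ≠ 0 →
        IsSquare (vl (W := W) (Affine.Point.some _ _ hns) x c * ((-1) ^ d * p.eval x)) := by
      intro x c hx hx'
      rw [vl_some hns _ _ hx']
      exact key x hx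
    refine ⟨A, B, Affine.Point.some _ _ hns, hne, h0, ?_, Or.inr ⟨_, _, hns, rfl, ?_, ?_⟩⟩
    · unfold Cls
      by_cases h1 : x0 - e1 = 0
      · have hx : x0 = e1 := sub_eq_zero.1 h1
        have k2 := key' e2 ((e2 - e1) * (e2 - e3)) hfi.2.1 (by rw [hx]; exact sub_ne_zero.2 h12)
        have k3 := key' e3 ((e3 - e1) * (e3 - e2)) hfi.2.2 (by rw [hx]; exact sub_ne_zero.2 h13)
        refine ⟨third v2 v3 (hg e2) (hg e3) k2 k3 ?_ ?_, k2, k3⟩
        · convert hv using 1; ring
        · convert hprod using 1; ring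
      · have k1 := key' e1 ((e1 - e2) * (e1 - e3)) hfi.1 h1
        by_cases h2' : x0 - e2 = 0
        · have hx : x0 = e2 := sub_eq_zero.1 h2'
          have k3 := key' e3 ((e3 - e1) * (e3 - e2)) hfi.2.2
            (by rw [hx]; exact sub_ne_zero.2 h23)
          refine ⟨k1, third v1 v3 (hg e1) (hg e3) k1 k3 ?_ ?_, k3⟩
          · convert hv using 1; ring
          · convert hprod using 1; ring
        · have k2 := key' e2 ((e2 - e1) * (e2 - e3)) hfi.2.1 h2'
          exact ⟨k1, k2, third v1 v2 (hg e1) (hg e2) k1 k2 hv hprod⟩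
    · field_simp
      ring
    · rw [hdn, hl1]

lemma norm_w_sq {θ : L} (h : Even (Module.finrank K L / (minpoly K θ).natDegree)) (e c : K) :
    IsSquare (Algebra.norm K (w θ e c)) := by
  unfold w
  by_cases hθ : θ - algebraMap K L e = 0
  · rw [if_pos hθ, Algebra.norm_algebraMap]
    have h1 : θ = algebraMap K L e := sub_eq_zero.1 hθ
    have h2 : (minpoly K θ).natDegree = 1 := by
      rw [minpoly.natDegree_eq_one_iff, h1]
      exact ⟨e, rfl⟩
    rw [h2, Nat.div_one] at h
    exact sq_pow_even h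
  · rw [if_neg hθ, norm_sub]
    exact sq_pow_even h

end

end Pool.Agent.Q284.ZC
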