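import Pool.Agent.Q284.ZC.Cl

/-!
# The class of a closed point is the class of its trace
-/

set_option autoImplicit false

open WeierstrassCurve Polynomial IntermediateField nonZeroDivisors

namespace Pool.Agent.Q284.ZC

open Pool.Agent.H437R2.Man.MW (crv crv_eqn crv_nonsing)

open Pool.Agent.Q284.FDQ (vl vl_zero vl_some vl_root vl_ne vl_prod sq_third)

open WeierstrassCurve.Affine (CoordinateRing)

section

variable {K L : Type} [Field K] [CharZero K] [Field L] [Algebra K L] [FiniteDimensional K L]

variable {W : WeierstrassCurve K} {e1 e2 e3 : K}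

omit [CharZero K] in
lemma el_eq (A : K[X]) : (A • (1 : W.toAffine.CoordinateRing)) = CoordinateRing.mk W.toAffine
    (C A) := by
  rw [CoordinateRing.smul, mul_one]

omit [CharZero K] [FiniteDimensional K L] in
/-- the evaluation at the point -/
lemma ev (π : W.toAffine.CoordinateRing →ₐ[K] L) (A B : K[X]) :
    π (A • (1 : W.toAffine.CoordinateRing) + B • CoordinateRing.mk W.toAffine X) =
      aeval (π (CoordinateRing.mk W.toAffine (C X))) A +
        aeval (π (CoordinateRing.mk W.toAffine (C X))) B *
          π (CoordinateRing.mk W.toAffine X) := by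
  have key : ∀ A : K[X], π (CoordinateRing.mk W.toAffine (C A)) =
      aeval (π (CoordinateRing.mk W.toAffine (C X))) A := by
    intro A
    have h : π.comp (IsScalarTower.toAlgHom K K[X] W.toAffine.CoordinateRing) =
        aeval (π (CoordinateRing.mk W.toAffine (C X))) := by
      apply Polynomial.algHom_ext
      rw [aeval_X]
      rfl
    exact DFunLike.congr_fun h A
  rw [map_add, el_eq, CoordinateRing.smul, map_mul, key A, key B]

omit [CharZero K] in
lemma crv_coef (hW : W = crv (-e1) (-e2) (-e3)) : W.a₁ = 0 ∧ W.a₃ = 0 ∧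
    (X ^ 3 + C W.a₂ * X ^ 2 + C W.a₄ * X + C W.a₆ : K[X]) =
      (X - C e1) * (X - C e2) * (X - C e3) := by
  subst hW
  refine ⟨rfl, rfl, ?_⟩
  simp only [crv, C_add, C_mul, C_neg]
  ring

/-- the equation of the point -/
lemma eta (hW : W = crv (-e1) (-e2) (-e3)) (π : W.toAffine.CoordinateRing →ₐ[K] L) :
    (π (CoordinateRing.mk W.toAffine X)) ^ 2 =
      (π (CoordinateRing.mk W.toAffine (C X)) - algebraMap K L e1) *
      (π (CoordinateRing.mk W.toAffine (C X)) - algebraMap K L e2) *
      (π (CoordinateRing.mk W.toAffine (C X)) - algebraMap K L e3) := by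
  obtain ⟨h1, h3, hc⟩ := crv_coef hW
  have h := CoordinateRing.smul_basis_mul_Y (W' := W.toAffine) (0 : K[X]) (1 : K[X])
  rw [zero_smul, zero_add, one_smul, one_mul] at h
  have h2 : (X ^ 3 + C W.toAffine.a₂ * X ^ 2 + C W.toAffine.a₄ * X + C W.toAffine.a₆ : K[X]) =
      (X - C e1) * (X - C e2) * (X - C e3) := hc
  have h1' : W.toAffine.a₁ = 0 := h1
  have h3' : W.toAffine.a₃ = 0 := h3
  rw [h2, h1', h3', C_0, zero_mul, zero_add, mul_zero, sub_zero, zero_smul, add_zero] at h
  have h4 := congrArg π h
  rw [map_mul, ← pow_two] at h4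
  rw [h4]
  have h5 := ev π ((X - C e1) * (X - C e2) * (X - C e3)) 0
  rw [zero_smul, add_zero, map_zero, zero_mul, add_zero] at h5
  rw [h5]
  simp

omit [CharZero K] in
/-- the dimension of the quotient by an element -/
lemma fin_span (hW : W = crv (-e1) (-e2) (-e3)) {A B : K[X]} (h : A ≠ 0 ∨ B ≠ 0) :
    A • (1 : W.toAffine.CoordinateRing) + B • CoordinateRing.mk W.toAffine X ≠ 0 ∧
    Module.finrank K (W.toAffine.CoordinateRing ⧸ Ideal.span
      {A • (1 : W.toAffine.CoordinateRing) + B • CoordinateRing.mk W.toAffine X}) =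
      (A ^ 2 - (X - C e1) * (X - C e2) * (X - C e3) * B ^ 2).natDegree := by
  obtain ⟨h1, h3, hc⟩ := crv_coef hW
  have h2 : (X ^ 3 + C W.toAffine.a₂ * X ^ 2 + C W.toAffine.a₄ * X + C W.toAffine.a₆ : K[X]) =
      (X - C e1) * (X - C e2) * (X - C e3) := hc
  have h1' : W.toAffine.a₁ = 0 := h1
  have h3' : W.toAffine.a₃ = 0 := h3
  have hne : A • (1 : W.toAffine.CoordinateRing) + B • CoordinateRing.mk W.toAffine X ≠ 0 := by
    intro h0
    obtain ⟨hA, hB⟩ := CoordinateRing.smul_basis_eq_zero h0
    rcases h with h | h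
    · exact h hA
    · exact h hB
  refine ⟨hne, ?_⟩
  rw [finrank_quotient_span_eq_natDegree_norm (CoordinateRing.basis W.toAffine) hne,
    CoordinateRing.norm_smul_basis, h2, h1', h3', C_0, zero_mul, zero_add, mul_zero, sub_zero,
    mul_comm (B ^ 2)]

omit [CharZero K] in
/-- a function which vanishes at a rational point is in its ideal -/
lemma mem_xy {A B : K[X]} {x0 y0 : K} (h : A.eval x0 + B.eval x0 * y0 = 0) :
    A • (1 : W.toAffine.CoordinateRing) + B • CoordinateRing.mk W.toAffine X ∈
      CoordinateRing.XYIdeal W.toAffine x0 (C y0) := by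
  have hA : ∃ A' : K[X], A = (X - C x0) * A' + C (A.eval x0) := by
    obtain ⟨A', hA'⟩ := X_sub_C_dvd_sub_C_eval (a := x0) (p := A)
    exact ⟨A', by rw [← hA']; ring⟩
  have hB : ∃ B' : K[X], B = (X - C x0) * B' + C (B.eval x0) := by
    obtain ⟨B', hB'⟩ := X_sub_C_dvd_sub_C_eval (a := x0) (p := B)
    exact ⟨B', by rw [← hB']; ring⟩
  obtain ⟨A', hA'⟩ := hA
  obtain ⟨B', hB'⟩ := hB
  have e1 : A • (1 : W.toAffine.CoordinateRing) + B • CoordinateRing.mk W.toAffine X =
      CoordinateRing.mk W.toAffine (C A' + C B' * X) * CoordinateRing.XClass W.toAffine x0 +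
      CoordinateRing.mk W.toAffine (C (C (B.eval x0))) *
        CoordinateRing.YClass W.toAffine (C y0) := by
    rw [el_eq, CoordinateRing.smul, ← map_mul, ← map_add]
    unfold CoordinateRing.XClass CoordinateRing.YClass
    rw [← map_mul, ← map_mul, ← map_add]
    congr 1
    conv_lhs => rw [hA', hB']
    have h3 : (C (C (A.eval x0)) : Polynomial (Polynomial K)) = -(C (C (B.eval x0)) * C (C y0)) := by
      rw [← C_mul, ← C_mul, ← C_neg, ← C_neg]
      congr 2
      linear_combination h
    rw [C_add, C_mul, h3, C_add, C_mul]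
    ring
  rw [e1]
  refine Ideal.add_mem _ (Ideal.mul_mem_left _ _ ?_) (Ideal.mul_mem_left _ _ ?_)
  · exact Ideal.subset_span (Set.mem_insert _ _)
  · exact Ideal.subset_span (Set.mem_insert_of_mem _ rfl)

open Classical in
/-- **The class of a closed point** is the class of a rational point, and the values are the norms. -/
theorem cl_ker (hW : W = crv (-e1) (-e2) (-e3)) (h12 : e1 ≠ e2) (h13 : e1 ≠ e3)
    (h23 : e2 ≠ e3) (π : W.toAffine.CoordinateRing →ₐ[K] L) (hπ : Function.Surjective π) :
    ∃ Q : W.toAffine.Point,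
      IsUnit ((RingHom.ker π : Ideal W.toAffine.CoordinateRing) :
        FractionalIdeal W.toAffine.CoordinateRing⁰ W.toAffine.FunctionField) ∧
      cl (RingHom.ker π) = (Affine.Point.toClass Q).toMul ∧
      Cls e1 e2 e3 Q
        (Algebra.norm K (w (π (CoordinateRing.mk W.toAffine (C X))) e1 ((e1 - e2) * (e1 - e3))))
        (Algebra.norm K (w (π (CoordinateRing.mk W.toAffine (C X))) e2 ((e2 - e1) * (e2 - e3))))
        (Algebra.norm K (w (π (CoordinateRing.mk W.toAffine (C X))) e3
          ((e3 - e1) * (e3 - e2)))) := by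
  set 𝔪 : Ideal W.toAffine.CoordinateRing := RingHom.ker π with h𝔪
  have hη := eta hW π
  have hev := ev π
  obtain ⟨θ, hθ⟩ : ∃ θ, θ = π (CoordinateRing.mk W.toAffine (C X)) := ⟨_, rfl⟩
  obtain ⟨η, hηe⟩ : ∃ η, η = π (CoordinateRing.mk W.toAffine X) := ⟨_, rfl⟩
  rw [← hθ] at hη hev ⊢
  rw [← hηe] at hη hev
  -- the dimension of the residue field
  have hfin : Module.finrank K (W.toAffine.CoordinateRing ⧸ 𝔪) = Module.finrank K L :=
    (Ideal.quotientKerAlgEquivOfSurjective hπ).toLinearEquiv.finrank_eq
  have hfd : Module.Finite K (W.toAffine.CoordinateRing ⧸ 𝔪) :=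
    Module.Finite.equiv (Ideal.quotientKerAlgEquivOfSurjective hπ).toLinearEquiv.symm
  have hmem : ∀ A B : K[X], aeval θ A + aeval θ B * η = 0 →
      Ideal.span {A • (1 : W.toAffine.CoordinateRing) + B • CoordinateRing.mk W.toAffine X} ≤
        𝔪 := by
    intro A B h
    rw [Ideal.span_singleton_le_iff_mem, h𝔪, RingHom.mem_ker]
    exact (hev A B).trans h
  have hi : IsIntegral K θ := Algebra.IsIntegral.isIntegral θ
  have hpm := minpoly.monic hi
  have hp0 : minpoly K θ ≠ 0 := hpm.ne_zero
  -- the ideal of the abscissa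
  have hI := hmem (minpoly K θ) 0 (by rw [minpoly.aeval, map_zero, zero_mul, add_zero])
  obtain ⟨hne, hfI⟩ := fin_span hW (A := minpoly K θ) (B := 0) (Or.inl hp0)
  have hfI' : Module.finrank K (W.toAffine.CoordinateRing ⧸ Ideal.span
      {minpoly K θ • (1 : W.toAffine.CoordinateRing) +
        (0 : K[X]) • CoordinateRing.mk W.toAffine X}) = 2 * (minpoly K θ).natDegree := by
    rw [hfI]
    have : (minpoly K θ ^ 2 - (X - C e1) * (X - C e2) * (X - C e3) * 0 ^ 2) =
      minpoly K θ ^ 2 := by ring
    rw [this, natDegree_pow]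
  have hd0 : 0 < (minpoly K θ).natDegree := minpoly.natDegree_pos hi
  have hle : Module.finrank K L ≤ 2 * (minpoly K θ).natDegree := by
    rw [← hfI', ← hfin]
    haveI : Module.Finite K (W.toAffine.CoordinateRing ⧸ Ideal.span
      {minpoly K θ • (1 : W.toAffine.CoordinateRing) +
        (0 : K[X]) • CoordinateRing.mk W.toAffine X}) :=
      Module.finite_of_finrank_pos (by rw [hfI']; omega)
    exact LinearMap.finrank_le_finrank_of_surjective (f := (Ideal.Quotient.factorₐ K hI).toLinearMap)
      (Ideal.Quotient.factor_surjective hI)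
  obtain ⟨m, hm⟩ : (minpoly K θ).natDegree ∣ Module.finrank K L := minpoly.degree_dvd hi
  have hn0 : 0 < Module.finrank K L := Module.finrank_pos
  have hm12 : m = 1 ∨ m = 2 := by
    have h1 : m ≤ 2 := by
      by_contra hc
      push Not at hc
      nlinarith
    have h2 : m ≠ 0 := by
      rintro rfl
      rw [mul_zero] at hm
      omega
    omega
  rcases hm12 with rfl | rfl
  · rw [mul_one] at hm
    rcases Nat.lt_or_ge 1 (Module.finrank K L) with h2 | h2
    · -- the general case
      obtain ⟨A, B, Q, hAB, h0, hQ, hcase⟩ := rr' hW h12 h13 h23 hη hm.symm h2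
      have hndvd : Module.finrank K L / (minpoly K θ).natDegree = 1 := by
        rw [hm, Nat.div_self hd0]
      have hθe : ∀ e : K, θ - algebraMap K L e ≠ 0 := by
        intro e he
        have h3 : θ = algebraMap K L e := sub_eq_zero.1 he
        have h4 : (minpoly K θ).natDegree = 1 := by
          rw [minpoly.natDegree_eq_one_iff, h3]
          exact ⟨e, rfl⟩
        omega
      have hw : ∀ e c : K, Algebra.norm K (w θ e c) =
          (-1) ^ (minpoly K θ).natDegree * (minpoly K θ).eval e := by
        intro e c
        unfold w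
        rw [if_neg (hθe e), norm_sub, hndvd, pow_one]
      rw [hw, hw, hw]
      have hle2 := hmem A B h0
      obtain ⟨hne2, hf2⟩ := fin_span hW hAB
      rcases hcase with ⟨hQ0, hdeg⟩ | ⟨x0, y0, hn, hQ0, hv, hdeg⟩
      · rw [hdeg] at hf2
        have heq := eq_of_finrank hle2 (by rw [hf2]; omega) (by rw [hf2, hfin])
        obtain ⟨u1, u2⟩ := cl_span hne2 heq.symm
        refine ⟨Q, u1, ?_, hQ⟩
        rw [u2, hQ0]
        rfl
      · rw [hdeg] at hf2
        have hn' : W.toAffine.Nonsingular x0 (-y0) := by
          apply mk_pt hW h12 h13 h23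
          rw [← eqn hW hn]
          ring
        have hxy : Ideal.span {A • (1 : W.toAffine.CoordinateRing) +
            B • CoordinateRing.mk W.toAffine X} ≤
            CoordinateRing.XYIdeal W.toAffine x0 (C (-y0)) := by
          rw [Ideal.span_singleton_le_iff_mem]
          exact mem_xy (by linear_combination hv)
        have hev0 : (W.toAffine.polynomial.eval (C (-y0))).eval x0 = 0 := hn'.1
        have hf1 : Module.finrank K (W.toAffine.CoordinateRing ⧸
            CoordinateRing.XYIdeal W.toAffine x0 (C (-y0))) = 1 := by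
          rw [(CoordinateRing.quotientXYIdealEquiv hev0).toLinearEquiv.finrank_eq,
            Module.finrank_self]
        have hfd1 : Module.Finite K (W.toAffine.CoordinateRing ⧸
            CoordinateRing.XYIdeal W.toAffine x0 (C (-y0))) :=
          Module.finite_of_finrank_pos (by rw [hf1]; norm_num)
        have hmax1 : 𝔪.IsMaximal := RingHom.ker_isMaximal_of_surjective
          (π : W.toAffine.CoordinateRing →+* L) hπ
        have hmax2 : (CoordinateRing.XYIdeal W.toAffine x0 (C (-y0))).IsMaximal := by
          apply Ideal.Quotient.maximal_of_isField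
          exact (CoordinateRing.quotientXYIdealEquiv hev0).toMulEquiv.isField
            (Field.toIsField K)
        have hcop : 𝔪 ⊔ CoordinateRing.XYIdeal W.toAffine x0 (C (-y0)) = ⊤ := by
          apply Ideal.IsMaximal.coprime_of_ne hmax1 hmax2
          intro h5
          rw [← h5, hfin] at hf1
          omega
        have hprod := mul_of_finrank hle2 hxy hcop (by rw [hf2]; omega) hfd hfd1
          (by rw [hf2, hfin, hf1])
        have hu := isUnit_of_mul hne2 hprod
        have hcl := cl_mul hne2 hprod (CoordinateRing.XYIdeal' (W := W.toAffine) hn')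
          (CoordinateRing.XYIdeal'_eq hn')
        refine ⟨Q, hu, ?_, hQ⟩
        have hneg : Q = -(Affine.Point.some x0 (-y0) hn' : W.toAffine.Point) := by
          rw [hQ0, Affine.Point.neg_some]
          congr 1
          obtain ⟨h1, h3, -⟩ := crv_coef hW
          have h1' : W.toAffine.a₁ = 0 := h1
          have h3' : W.toAffine.a₃ = 0 := h3
          simp only [Affine.negY, h1', h3']
          ring
        rw [hneg, map_neg, toMul_neg]
        rw [eq_inv_iff_mul_eq_one]
        exact hcl
    · -- a rational point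
      have h1 : Module.finrank K L = 1 := by omega
      have hsurj : ∀ x : L, ∃ a : K, algebraMap K L a = x := by
        intro x
        have h3 := (Algebra.finrank_eq_one_iff_bijective_algebraMap (F := K) (E := L)).1 h1
        exact h3.2 x
      obtain ⟨x0, hx0⟩ := hsurj θ
      obtain ⟨y0, hy0⟩ := hsurj η
      have hE : y0 ^ 2 = (x0 - e1) * (x0 - e2) * (x0 - e3) := by
        apply (algebraMap K L).injective
        rw [map_pow, map_mul, map_mul, map_sub, map_sub, map_sub, hx0, hy0]
        exact hη
      have hn := mk_pt hW h12 h13 h23 hE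
      have hxy : CoordinateRing.XYIdeal W.toAffine x0 (C y0) ≤ 𝔪 := by
        unfold CoordinateRing.XYIdeal
        rw [Ideal.span_le]
        rintro z (rfl | rfl)
        · show π (CoordinateRing.XClass W.toAffine x0) = 0
          have h3 := hev (X - C x0) 0
          rw [zero_smul, add_zero, el_eq, map_zero, zero_mul, add_zero] at h3
          refine h3.trans ?_
          rw [map_sub, aeval_X, aeval_C, hx0, sub_self]
        · show π (CoordinateRing.YClass W.toAffine (C y0)) = 0
          have h3 := hev (-(C y0)) 1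
          have h4 : aeval θ (-(C y0) : K[X]) + aeval θ (1 : K[X]) * η = 0 := by
            rw [map_neg, map_one, one_mul, aeval_C, hy0, neg_add_cancel]
          rw [h4, one_smul, el_eq, ← map_add] at h3
          rw [← h3]
          unfold CoordinateRing.YClass
          congr 2
          rw [C_neg]
          ring
      have hev0 : (W.toAffine.polynomial.eval (C y0)).eval x0 = 0 := hn.1
      have hf1 : Module.finrank K (W.toAffine.CoordinateRing ⧸
          CoordinateRing.XYIdeal W.toAffine x0 (C y0)) = 1 := by
        rw [(CoordinateRing.quotientXYIdealEquiv hev0).toLinearEquiv.finrank_eq,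
          Module.finrank_self]
      have heq := eq_of_finrank hxy (by rw [hf1]; norm_num) (by rw [hf1, hfin, h1])
      have hu : IsUnit (𝔪 : FractionalIdeal W.toAffine.CoordinateRing⁰ W.toAffine.FunctionField) := by
        rw [← heq, ← CoordinateRing.XYIdeal'_eq hn]
        exact Units.isUnit _
      refine ⟨Affine.Point.some x0 y0 hn, hu, ?_, ?_⟩
      · unfold cl
        rw [dif_pos hu, Affine.Point.toClass_some]
        refine congrArg (ClassGroup.mk W.toAffine.FunctionField) ?_
        apply Units.ext
        rw [IsUnit.unit_spec, CoordinateRing.XYIdeal'_eq hn, heq]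
      · have hw : ∀ e c : K, Algebra.norm K (w θ e c) =
            vl (W := W) (Affine.Point.some x0 y0 hn) e c := by
          intro e c
          unfold w
          by_cases h3 : x0 - e = 0
          · rw [vl_root hn _ _ h3, if_pos (by rw [← hx0, ← map_sub, h3, map_zero]),
              Algebra.norm_algebraMap, h1, pow_one]
          · rw [vl_some hn _ _ h3, if_neg (by
              rw [← hx0, ← map_sub]
              intro h4
              exact h3 ((_root_.map_eq_zero _).1 h4)), ← hx0, ← map_sub,
              Algebra.norm_algebraMap, h1, pow_one]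
        unfold Cls
        rw [hw, hw, hw]
        exact ⟨⟨_, rfl⟩, ⟨_, rfl⟩, ⟨_, rfl⟩⟩
  · -- the ordinate is not determined
    have heq := eq_of_finrank hI (by rw [hfI']; omega) (by rw [hfI', hfin, hm, mul_comm])
    obtain ⟨u1, u2⟩ := cl_span hne heq.symm
    have hev2 : Even (Module.finrank K L / (minpoly K θ).natDegree) := by
      rw [hm, Nat.mul_div_cancel_left _ hd0]
      exact even_two
    refine ⟨0, u1, ?_, cls_zero (norm_w_sq hev2 _ _) (norm_w_sq hev2 _ _) (norm_w_sq hev2 _ _)⟩
    rw [u2]
    rfl

end

end Pool.Agent.Q284.ZC
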