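import Pool.Agent.Q284.ZC.Mul

/-!
# Zero-cycles on the quartics
-/

set_option autoImplicit false

open WeierstrassCurve Polynomial

namespace Pool.Agent.Q284.ZC

open Pool.Agent.H437R2.Man.MW (crv crv_eqn crv_nonsing)

open Pool.Agent.Q284.FDQ (vl vl_zero vl_some vl_root vl_ne vl_prod sq_third)

section

variable {K : Type} [Field K] [CharZero K]

/-- the curve `y² = x (x - A) (x - B)` over `K` -/
def WK (K : Type) [Field K] (A B : ℤ) : WeierstrassCurve K := crv (-0) (-(A : K)) (-(B : K))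

lemma quart_eq {F : Type} [Field F] [CharZero F] {A B b : ℤ} (hb : b ≠ 0) (hd : b ∣ A * B)
    {N M e : F} (eq : N ^ 2 = (b : F) * M ^ 4 + ((-(A + B) : ℤ) : F) * M ^ 2 * e ^ 2 +
      ((A * B / b : ℤ) : F) * e ^ 4) :
    (b : F) * N ^ 2 = (b * M ^ 2 - A * e ^ 2) * (b * M ^ 2 - B * e ^ 2) := by
  obtain ⟨c, hc⟩ := hd
  have hc' : (A : F) * B = b * c := by exact_mod_cast congrArg (Int.cast : ℤ → F) hc
  rw [hc, Int.mul_ediv_cancel_left _ hb] at eq
  rw [eq]
  push_cast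
  linear_combination -(e ^ 4) * hc'

open Classical in
/-- the value of `b M² - R e²` modulo squares -/
noncomputable def val {F : Type} [Field F] (b R S : ℤ) (M e : F) : F :=
  if (b : F) * M ^ 2 - R * e ^ 2 ≠ 0 then (b : F) * M ^ 2 - R * e ^ 2
  else b * ((b : F) * M ^ 2 - S * e ^ 2)

lemma val_ne {F : Type} [Field F] [CharZero F] {b R S : ℤ} (hb : b ≠ 0)
    (hRS : R ≠ S) {M e : F} (ne : M ≠ 0 ∨ e ≠ 0) : val b R S M e ≠ 0 := by
  unfold val
  by_cases h : (b : F) * M ^ 2 - R * e ^ 2 ≠ 0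
  · rw [if_pos h]; exact h
  · rw [if_neg h]
    push Not at h
    have hb' : (b : F) ≠ 0 := Int.cast_ne_zero.2 hb
    have he : e ≠ 0 := by
      rintro rfl
      have hM : M ≠ 0 := ne.resolve_right (not_not.2 rfl)
      have : (b : F) * M ^ 2 = 0 := by linear_combination h
      exact mul_ne_zero hb' (pow_ne_zero 2 hM) this
    have hRS' : (R : F) - S ≠ 0 := sub_ne_zero.2 (Int.cast_injective.ne hRS)
    have : (b : F) * M ^ 2 - S * e ^ 2 = (R - S) * e ^ 2 := by linear_combination h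
    rw [this]
    exact mul_ne_zero hb' (mul_ne_zero hRS' (pow_ne_zero 2 he))

lemma norm_conv {L : Type} [Field L] [Algebra K L] [FiniteDimensional K L] {v : K} {w u : L}
    (hw : w ≠ 0) (h : IsSquare (v * Algebra.norm K w)) (h' : IsSquare (w * u)) :
    IsSquare (v * Algebra.norm K u) := by
  obtain ⟨r, hr⟩ := h
  obtain ⟨s, hs⟩ := h'
  have hn : Algebra.norm K w ≠ 0 := Algebra.norm_ne_zero_iff.2 hw
  have h1 : Algebra.norm K w * Algebra.norm K u = Algebra.norm K s * Algebra.norm K s := by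
    rw [← map_mul, hs, map_mul]
  refine ⟨r * Algebra.norm K s / Algebra.norm K w, ?_⟩
  field_simp
  linear_combination (Algebra.norm K w * Algebra.norm K u) * hr + (r * r) * h1

omit [CharZero K] in
/-- the value of `x - R` and of `b M² - R e²` -/
lemma w_val {L : Type} [Field L] [Algebra K L] [FiniteDimensional K L] {b R S : ℤ}
    (_hb : b ≠ 0) {M e : L} (he : e ≠ 0) :
    IsSquare (w (K := K) ((b : L) * M ^ 2 / e ^ 2) (R : K) (((R : K) - 0) * (R - S)) *
      val b R S M e) := by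
  unfold w val
  rw [map_intCast]
  by_cases h : (b : L) * M ^ 2 - R * e ^ 2 = 0
  · have h1 : (b : L) * M ^ 2 / e ^ 2 - R = 0 := by
      field_simp
      linear_combination h
    rw [if_pos h1, if_neg (not_not.2 h)]
    refine ⟨(b : L) * M * (R - S), ?_⟩
    simp only [map_mul, map_sub, map_intCast, map_zero]
    have h2 : (b : L) * M ^ 2 = R * e ^ 2 := by linear_combination h
    linear_combination ((R : L) * (R - S) * b - b * (R - S) ^ 2) * h2
  · have h1 : (b : L) * M ^ 2 / e ^ 2 - R ≠ 0 := by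
      intro h2
      apply h
      field_simp at h2
      linear_combination h2
    rw [if_neg h1, if_pos h]
    refine ⟨((b : L) * M ^ 2 - R * e ^ 2) / e, ?_⟩
    field_simp

lemma w_zero {L : Type} [Field L] [CharZero L] [Algebra K L] [FiniteDimensional K L]
    {A B b : ℤ} (hb : b ≠ 0) {N M e : L} (he : e ≠ 0)
    (eq : (b : L) * N ^ 2 = (b * M ^ 2 - A * e ^ 2) * (b * M ^ 2 - B * e ^ 2)) :
    IsSquare (w (K := K) ((b : L) * M ^ 2 / e ^ 2) 0 (((0 : K) - A) * (0 - B)) * (b : L)) := by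
  have hb' : (b : L) ≠ 0 := Int.cast_ne_zero.2 hb
  unfold w
  rw [map_zero, sub_zero]
  by_cases h : M = 0
  · rw [if_pos (by rw [h]; ring)]
    rw [h] at eq
    refine ⟨b * N / e ^ 2, ?_⟩
    simp only [map_mul, map_sub, map_intCast, map_zero]
    field_simp
    linear_combination -eq
  · have h1 : (b : L) * M ^ 2 / e ^ 2 ≠ 0 :=
      div_ne_zero (mul_ne_zero hb' (pow_ne_zero 2 h)) (pow_ne_zero 2 he)
    rw [if_neg h1]
    exact ⟨b * M / e, by field_simp⟩

/-- **The class of a closed point.** -/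
theorem single' {L : Type} [Field L] [Algebra K L] [FiniteDimensional K L] {A B b : ℤ}
    (hA : A ≠ 0) (hB : B ≠ 0) (hAB : A ≠ B) (hb : b ≠ 0) {N M e : L}
    (ne : M ≠ 0 ∨ e ≠ 0)
    (hq : (b : L) * N ^ 2 = (b * M ^ 2 - A * e ^ 2) * (b * M ^ 2 - B * e ^ 2)) :
    ∃ Q : (WK K A B).toAffine.Point, Cls (0 : K) (A : K) (B : K) Q
      ((b : K) ^ Module.finrank K L) (Algebra.norm K (val b A B M e))
      (Algebra.norm K (val b B A M e)) := by
  haveI : CharZero L := charZero_of_injective_algebraMap (algebraMap K L).injective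
  have hb' : (b : L) ≠ 0 := Int.cast_ne_zero.2 hb
  have hA' : (0 : K) ≠ A := (Int.cast_ne_zero.2 hA).symm
  have hB' : (0 : K) ≠ B := (Int.cast_ne_zero.2 hB).symm
  have hAB' : (A : K) ≠ B := Int.cast_injective.ne hAB
  have hnb : (b : K) ^ Module.finrank K L = Algebra.norm K (b : L) := by
    rw [← Algebra.norm_algebraMap, map_intCast]
  rw [hnb]
  by_cases he : e = 0
  · have hM : M ≠ 0 := ne.resolve_right (not_not.2 he)
    rw [he] at hq
    have h1 : (b : L) = (N / M ^ 2) * (N / M ^ 2) := by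
      field_simp
      apply mul_left_cancel₀ hb'
      linear_combination -hq
    have h2 : ∀ R S : ℤ, val b R S M e = (N / M) * (N / M) := by
      intro R S
      have h3 : (b : L) * M ^ 2 - R * e ^ 2 ≠ 0 := by
        rw [he]
        have : (b : L) * M ^ 2 - R * 0 ^ 2 = b * M ^ 2 := by ring
        rw [this]
        exact mul_ne_zero hb' (pow_ne_zero 2 hM)
      unfold val
      rw [if_pos h3, he, h1]
      field_simp
      ring
    rw [h2, h2]
    refine ⟨0, cls_zero ?_ ?_ ?_⟩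
    · rw [h1, map_mul]; exact ⟨_, rfl⟩
    · rw [map_mul]; exact ⟨_, rfl⟩
    · rw [map_mul]; exact ⟨_, rfl⟩
  · have hη : (b * M * N / e ^ 3) ^ 2 = ((b : L) * M ^ 2 / e ^ 2 - algebraMap K L 0) *
        (b * M ^ 2 / e ^ 2 - algebraMap K L A) * (b * M ^ 2 / e ^ 2 - algebraMap K L B) := by
      rw [map_zero, map_intCast, map_intCast]
      field_simp
      linear_combination ((b : L) * M ^ 2) * hq
    obtain ⟨Q, q1, q2, q3⟩ := tr (W := WK K A B) rfl hA' hB' hAB' hη
    have wne : ∀ {x c : K}, c ≠ 0 → w (K := K) ((b : L) * M ^ 2 / e ^ 2) x c ≠ 0 := by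
      intro x c hc
      unfold w
      split_ifs with h
      · exact (_root_.map_ne_zero _).2 hc
      · exact h
    refine ⟨Q, norm_conv (wne ?_) q1 (w_zero hb he hq),
      norm_conv (wne ?_) q2 (w_val hb he), norm_conv (wne ?_) q3 ?_⟩
    · exact mul_ne_zero (sub_ne_zero.2 hA') (sub_ne_zero.2 hB')
    · exact mul_ne_zero (sub_ne_zero.2 hA'.symm) (sub_ne_zero.2 hAB')
    · exact mul_ne_zero (sub_ne_zero.2 hB'.symm) (sub_ne_zero.2 hAB'.symm)
    · exact w_val (K := K) hb he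

/-- **The class of a closed point of the quartic.** -/
theorem single {L : Type} [Field L] [Algebra K L] [FiniteDimensional K L] {A B b : ℤ}
    (hA : A ≠ 0) (hB : B ≠ 0) (hAB : A ≠ B) (hb : b ≠ 0) (hd : b ∣ A * B) {N M e : L}
    (ne : M ≠ 0 ∨ e ≠ 0)
    (eq : N ^ 2 = (b : L) * M ^ 4 + ((-(A + B) : ℤ) : L) * M ^ 2 * e ^ 2 +
      ((A * B / b : ℤ) : L) * e ^ 4) :
    ∃ Q : (WK K A B).toAffine.Point, Cls (0 : K) (A : K) (B : K) Q
      ((b : K) ^ Module.finrank K L) (Algebra.norm K (val b A B M e))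
      (Algebra.norm K (val b B A M e)) := by
  haveI : CharZero L := charZero_of_injective_algebraMap (algebraMap K L).injective
  exact single' hA hB hAB hb ne (quart_eq hb hd eq)

/-- **The class of a closed point of the full covering.** -/
theorem single_cov {L : Type} [Field L] [Algebra K L] [FiniteDimensional K L] {A B b d : ℤ}
    (hA : A ≠ 0) (hB : B ≠ 0) (hAB : A ≠ B) (hb : b ≠ 0) {M e x y : L}
    (ne : M ≠ 0 ∨ e ≠ 0) (h1 : (b : L) * M ^ 2 - (A : L) * e ^ 2 = (d : L) * x ^ 2)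
    (h2 : (b : L) * M ^ 2 - (B : L) * e ^ 2 = (b : L) * d * y ^ 2) :
    ∃ Q : (WK K A B).toAffine.Point, Cls (0 : K) (A : K) (B : K) Q
      ((b : K) ^ Module.finrank K L) ((d : K) ^ Module.finrank K L)
      (Algebra.norm K (val b B A M e)) := by
  haveI : CharZero L := charZero_of_injective_algebraMap (algebraMap K L).injective
  obtain ⟨Q, q1, q2, q3⟩ := single' (K := K) hA hB hAB hb (N := d * x * y) ne
    (by rw [h1, h2]; ring)
  have hnd : (d : K) ^ Module.finrank K L = Algebra.norm K (d : L) := by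
    rw [← Algebra.norm_algebraMap, map_intCast]
  rw [hnd]
  refine ⟨Q, q1, norm_conv (val_ne hb hAB ne) q2 ?_, q3⟩
  unfold val
  by_cases h : (b : L) * M ^ 2 - A * e ^ 2 ≠ 0
  · rw [if_pos h, h1]
    exact ⟨d * x, by ring⟩
  · rw [if_neg h, h2]
    exact ⟨b * d * y, by ring⟩

/-- **The point of the quartic with the class of a point of the curve.** -/
theorem lift {A B b : ℤ} (hA : A ≠ 0) (hB : B ≠ 0) (hAB : A ≠ B) (hb : b ≠ 0) (hd : b ∣ A * B)
    {Q : (WK K A B).toAffine.Point} {g1 g2 : K}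
    (h : Cls (0 : K) (A : K) (B : K) Q (b : K) g1 g2) :
    ∃ N M e : K, (M ≠ 0 ∨ e ≠ 0) ∧ N ^ 2 = (b : K) * M ^ 4 +
      ((-(A + B) : ℤ) : K) * M ^ 2 * e ^ 2 + ((A * B / b : ℤ) : K) * e ^ 4 ∧
      IsSquare (val b A B M e * g1) ∧ IsSquare (val b B A M e * g2) := by
  have hb' : (b : K) ≠ 0 := Int.cast_ne_zero.2 hb
  have hA' : (A : K) ≠ 0 := Int.cast_ne_zero.2 hA
  have hB' : (B : K) ≠ 0 := Int.cast_ne_zero.2 hB
  have hAB' : (A : K) - B ≠ 0 := sub_ne_zero.2 (Int.cast_injective.ne hAB)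
  have hdiv : ((A * B / b : ℤ) : K) = A * B / b := by
    obtain ⟨c, hc⟩ := hd
    have hc' : (A : K) * B = b * c := by exact_mod_cast congrArg (Int.cast : ℤ → K) hc
    rw [hc, Int.mul_ediv_cancel_left _ hb, hc']
    field_simp
  rw [hdiv]
  have comb : ∀ {u v g : K}, v ≠ 0 → IsSquare (u * v) → IsSquare (v * g) → IsSquare (u * g) := by
    rintro u v g hv ⟨r, hr⟩ ⟨s, hs⟩
    refine ⟨r * s / v, ?_⟩
    field_simp
    linear_combination (v * g) * hr + (r * r) * hs
  obtain ⟨h0, h1, h2⟩ := h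
  rcases Q with _ | ⟨x, y, hn⟩
  · change IsSquare (1 * (b : K)) at h0
    change IsSquare (1 * g1) at h1
    change IsSquare (1 * g2) at h2
    rw [one_mul] at h0 h1 h2
    obtain ⟨r, hr⟩ := h0
    have h3 : ∀ R S : ℤ, val b R S (1 : K) 0 = b := by
      intro R S
      unfold val
      rw [if_pos]
      · ring
      · have : (b : K) * 1 ^ 2 - R * 0 ^ 2 = b := by ring
        rw [this]; exact hb'
    refine ⟨r, 1, 0, Or.inl one_ne_zero, by rw [pow_two, ← hr]; ring, ?_, ?_⟩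
    · rw [h3]
      exact comb one_ne_zero ⟨r, by rw [mul_one]; exact hr⟩ (by rw [one_mul]; exact h1)
    · rw [h3]
      exact comb one_ne_zero ⟨r, by rw [mul_one]; exact hr⟩ (by rw [one_mul]; exact h2)
  · have E := eqn (W := WK K A B) rfl hn
    by_cases hx : x = 0
    · subst hx
      rw [vl_root hn _ _ (sub_self _)] at h0
      rw [vl_some hn _ _ (by rw [zero_sub]; exact neg_ne_zero.2 hA')] at h1
      rw [vl_some hn _ _ (by rw [zero_sub]; exact neg_ne_zero.2 hB')] at h2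
      obtain ⟨r, hr⟩ := h0
      have h3 : ∀ R S : ℤ, (R : K) ≠ 0 → val b R S (0 : K) 1 = 0 - R := by
        intro R S hR
        unfold val
        rw [if_pos]
        · ring
        · have : (b : K) * 0 ^ 2 - R * 1 ^ 2 = -R := by ring
          rw [this]; exact neg_ne_zero.2 hR
      refine ⟨r / b, 0, 1, Or.inr one_ne_zero, ?_, ?_, ?_⟩
      · rw [div_pow, pow_two r, ← hr]
        field_simp
        ring
      · rw [h3 A B hA']; exact h1
      · rw [h3 B A hB']; exact h2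
    · rw [vl_some hn _ _ (by rw [sub_zero]; exact hx)] at h0
      obtain ⟨r, hr⟩ := h0
      rw [sub_zero] at hr
      have hr0 : r ≠ 0 := by
        rintro rfl
        exact mul_ne_zero hx hb' (by rw [hr, mul_zero])
      have hM : (b : K) * (r / b) ^ 2 = x := by
        rw [div_pow, pow_two r, ← hr]
        field_simp
      have h3 : ∀ R S : ℤ, (R : K) - S ≠ 0 → IsSquare (val b R S (r / b) (1 : K) *
          vl (W := WK K A B) (Affine.Point.some _ _ hn) (R : K) (((R : K) - 0) * (R - S))) := by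
        intro R S hRS
        unfold val
        rw [hM, one_pow, mul_one, mul_one]
        by_cases h4 : x - R = 0
        · rw [if_neg (not_not.2 h4), vl_root hn _ _ h4]
          have hxR : x = R := sub_eq_zero.1 h4
          refine ⟨r * (R - S), ?_⟩
          rw [← hxR]
          linear_combination (x - S) ^ 2 * hr
        · rw [if_pos h4, vl_some hn _ _ h4]
          exact ⟨_, rfl⟩
      have vn1 := vl_ne (W := WK K A B) (Affine.Point.some _ _ hn) (e := (A : K))
        (c := ((A : K) - 0) * (A - B)) (mul_ne_zero (by rw [sub_zero]; exact hA') hAB')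
      have vn2 := vl_ne (W := WK K A B) (Affine.Point.some _ _ hn) (e := (B : K))
        (c := ((B : K) - 0) * (B - A)) (mul_ne_zero (by rw [sub_zero]; exact hB')
          (by rw [← neg_sub]; exact neg_ne_zero.2 hAB'))
      refine ⟨y / r, r / b, 1, Or.inr one_ne_zero, ?_, comb vn1 (h3 A B hAB') h1,
        comb vn2 (h3 B A (by rw [← neg_sub]; exact neg_ne_zero.2 hAB')) h2⟩
      have h5 : (r / b) ^ 2 = x / b := by rw [← hM]; field_simp
      have h6 : (r / b) ^ 4 = x ^ 2 / b ^ 2 := by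
        have : (r / (b : K)) ^ 4 = ((r / b) ^ 2) ^ 2 := by ring
        rw [this, h5, div_pow]
      rw [h5, h6, div_pow, E, pow_two r, ← hr]
      push_cast
      field_simp
      ring

omit [CharZero K] in
/-- powers of a class -/
lemma cls_zpow {W : WeierstrassCurve K} {e1 e2 e3 g1 g2 g3 : K} {Q : W.toAffine.Point}
    (h : Cls e1 e2 e3 Q g1 g2 g3) (h1 : g1 ≠ 0) (h2 : g2 ≠ 0) (h3 : g3 ≠ 0) (k : ℤ) :
    ∃ S : W.toAffine.Point, Cls e1 e2 e3 S (g1 ^ k) (g2 ^ k) (g3 ^ k) := by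
  rcases Int.even_or_odd k with hk | hk
  · obtain ⟨m, rfl⟩ := hk
    exact ⟨0, cls_zero ⟨g1 ^ m, zpow_add₀ h1 _ _⟩ ⟨g2 ^ m, zpow_add₀ h2 _ _⟩
      ⟨g3 ^ m, zpow_add₀ h3 _ _⟩⟩
  · obtain ⟨m, rfl⟩ := hk
    have key : ∀ {v g : K}, g ≠ 0 → IsSquare (v * g) → IsSquare (v * g ^ (2 * m + 1)) := by
      rintro v g hg ⟨r, hr⟩
      refine ⟨r * g ^ m, ?_⟩
      rw [zpow_add₀ hg, zpow_one, mul_comm (2 : ℤ) m, zpow_mul, zpow_ofNat]
      linear_combination (g ^ m) ^ 2 * hr
    exact ⟨Q, key h1 h.1, key h2 h.2.1, key h3 h.2.2⟩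

/-- classes of zero-cycles -/
theorem list_cls {ι : Type 1} {W : WeierstrassCurve K} {e1 e2 e3 : K}
    (hW : W = crv (-e1) (-e2) (-e3)) (h12 : e1 ≠ e2) (h13 : e1 ≠ e3) (h23 : e2 ≠ e3)
    (k : ι → ℤ) (g1 g2 g3 : ι → K) (h1 : ∀ i, g1 i ≠ 0) (h2 : ∀ i, g2 i ≠ 0)
    (h3 : ∀ i, g3 i ≠ 0) (h : ∀ i, ∃ Q : W.toAffine.Point, Cls e1 e2 e3 Q (g1 i) (g2 i) (g3 i))
    (z : List ι) : ∃ Q : W.toAffine.Point, Cls e1 e2 e3 Q ((z.map fun i => g1 i ^ k i).prod)
      ((z.map fun i => g2 i ^ k i).prod) ((z.map fun i => g3 i ^ k i).prod) := by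
  induction z with
  | nil => exact ⟨0, cls_zero ⟨1, by simp⟩ ⟨1, by simp⟩ ⟨1, by simp⟩⟩
  | cons i z ih =>
    obtain ⟨Q, hQ⟩ := ih
    obtain ⟨R, hR⟩ := h i
    obtain ⟨S, hS⟩ := cls_zpow hR (h1 i) (h2 i) (h3 i) (k i)
    obtain ⟨U, hU⟩ := mul_cls hW h12 h13 h23 hS hQ
    refine ⟨U, ?_⟩
    simpa only [List.map_cons, List.prod_cons] using hU

omit [CharZero K] in
lemma list_pow {ι : Type 1} {b : K} (hb : b ≠ 0) (k : ι → ℤ) (n : ι → ℕ) (z : List ι) :
    (z.map fun i => (b ^ n i) ^ k i).prod = b ^ ((z.map fun i => k i * (n i : ℤ)).sum) := by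
  induction z with
  | nil => simp
  | cons i z ih =>
    rw [List.map_cons, List.prod_cons, List.map_cons, List.sum_cons, ih, zpow_add₀ hb,
      ← zpow_natCast, ← zpow_mul, mul_comm (k i)]

lemma list_ne {ι : Type 1} {g : ι → K} (h : ∀ i, g i ≠ 0) (k : ι → ℤ) (z : List ι) :
    (z.map fun i => g i ^ k i).prod ≠ 0 := by
  induction z with
  | nil => simp
  | cons i z ih =>
    rw [List.map_cons, List.prod_cons]
    exact mul_ne_zero (zpow_ne_zero _ (h i)) ih

/-- **A zero-cycle of degree one on the quartic.** -/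
theorem quart_cycle {ι : Type 1} {A B b : ℤ} (hA : A ≠ 0) (hB : B ≠ 0) (hAB : A ≠ B)
    (hb : b ≠ 0) (hd : b ∣ A * B) (k : ι → ℤ) (n : ι → ℕ) (g1 g2 : ι → K)
    (h1 : ∀ i, g1 i ≠ 0) (h2 : ∀ i, g2 i ≠ 0)
    (h : ∀ i, ∃ Q : (WK K A B).toAffine.Point,
      Cls (0 : K) (A : K) (B : K) Q ((b : K) ^ n i) (g1 i) (g2 i))
    (z : List ι) (hz : (z.map fun i => k i * (n i : ℤ)).sum = 1) :
    ∃ N M e : K, (M ≠ 0 ∨ e ≠ 0) ∧ N ^ 2 = (b : K) * M ^ 4 +
      ((-(A + B) : ℤ) : K) * M ^ 2 * e ^ 2 + ((A * B / b : ℤ) : K) * e ^ 4 ∧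
      IsSquare (val b A B M e * (z.map fun i => g1 i ^ k i).prod) ∧
      IsSquare (val b B A M e * (z.map fun i => g2 i ^ k i).prod) := by
  have hb' : (b : K) ≠ 0 := Int.cast_ne_zero.2 hb
  have hA' : (0 : K) ≠ A := (Int.cast_ne_zero.2 hA).symm
  have hB' : (0 : K) ≠ B := (Int.cast_ne_zero.2 hB).symm
  have hAB' : (A : K) ≠ B := Int.cast_injective.ne hAB
  obtain ⟨Q, hQ⟩ := list_cls (W := WK K A B) rfl hA' hB' hAB' k (fun i => (b : K) ^ n i) g1 g2
    (fun i => pow_ne_zero _ hb') h1 h2 h z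
  rw [list_pow hb', hz, zpow_one] at hQ
  exact lift hA hB hAB hb hd hQ

/-- **A zero-cycle of degree one on the full covering.** -/
theorem cov_cycle {ι : Type 1} {A B b d : ℤ} (hA : A ≠ 0) (hB : B ≠ 0) (hAB : A ≠ B)
    (hb : b ≠ 0) (hd : d ≠ 0) (k : ι → ℤ) (n : ι → ℕ) (g : ι → K) (h1 : ∀ i, g i ≠ 0)
    (h : ∀ i, ∃ Q : (WK K A B).toAffine.Point,
      Cls (0 : K) (A : K) (B : K) Q ((b : K) ^ n i) ((d : K) ^ n i) (g i))
    (z : List ι) (hz : (z.map fun i => k i * (n i : ℤ)).sum = 1) :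
    Pool.Agent.Q284.FDQ.Cov K A B b d := by
  have hb' : (b : K) ≠ 0 := Int.cast_ne_zero.2 hb
  have hd' : (d : K) ≠ 0 := Int.cast_ne_zero.2 hd
  have hA' : (0 : K) ≠ A := (Int.cast_ne_zero.2 hA).symm
  have hB' : (0 : K) ≠ B := (Int.cast_ne_zero.2 hB).symm
  have hAB' : (A : K) ≠ B := Int.cast_injective.ne hAB
  obtain ⟨Q, q1, q2, -⟩ := list_cls (W := WK K A B) rfl hA' hB' hAB' k (fun i => (b : K) ^ n i)
    (fun i => (d : K) ^ n i) g (fun i => pow_ne_zero _ hb') (fun i => pow_ne_zero _ hd') h1 h z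
  rw [list_pow hb', hz, zpow_one] at q1
  rw [list_pow hd', hz, zpow_one] at q2
  have := Pool.Agent.Q284.FDQ.cov_of_vl (W := WK K A B) (e1 := 0) (e2 := A) (e3 := B)
    (by unfold WK; rw [Int.cast_zero]) hb' hd' (by rw [Int.cast_zero]; exact hA') Q
    (by rw [Int.cast_zero]; exact q1) (by rw [Int.cast_zero]; exact q2)
  rwa [sub_zero, sub_zero] at this

end

/-- equivalent quaternion algebras -/
lemma splits_sq {F : Type} [Field F] {u v q : F} (hu : u ≠ 0) (hv : v ≠ 0)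
    (h : IsSquare (u * v)) : Pool.Agent.W313.BMX.Splits u q ↔ Pool.Agent.W313.BMX.Splits v q := by
  have key : ∀ {u v : F}, u ≠ 0 → v ≠ 0 → IsSquare (u * v) →
      Pool.Agent.W313.BMX.Splits u q → Pool.Agent.W313.BMX.Splits v q := by
    rintro u v hu hv ⟨s, hs⟩ ⟨x, y, z, h0, h1⟩
    have hs0 : s ≠ 0 := by
      rintro rfl
      exact mul_ne_zero hu hv (by rw [hs, mul_zero])
    refine ⟨s * x / v, y, z, ?_, ?_⟩
    · rcases h0 with h0 | h0
      · exact Or.inl (div_ne_zero (mul_ne_zero hs0 h0) hv)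
      · exact Or.inr h0
    · rw [h1]
      field_simp
      linear_combination (x ^ 2) * hs
  exact ⟨key hu hv h, key hv hu (by rwa [mul_comm] at h)⟩

end Pool.Agent.Q284.ZC
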