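import Pool.Agent.W313.BMX.Final

/-!
# Sets of places which meet all ramification sets in an even number of places
-/

set_option autoImplicit false

namespace Pool.Agent.Q284.ZC

open Pool.Agent.W313.BMX

/-- there is a prime nonresidue below a prime `l > 2` -/
lemma prime_nonres {l : ℕ} [Fact l.Prime] (hl : l ≠ 2) :
    ∃ r : ℕ, r.Prime ∧ r < l ∧ ¬ IsSquare ((r : ℕ) : ZMod l) := by
  classical
  obtain ⟨a, ha⟩ := FiniteField.exists_nonsquare (F := ZMod l) (by rwa [ZMod.ringChar_zmod_n])
  have hex : ∃ n : ℕ, ¬ IsSquare ((n : ℕ) : ZMod l) := ⟨a.val, by rwa [ZMod.natCast_zmod_val]⟩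
  have hlt : Nat.find hex < l := by
    refine lt_of_le_of_lt (Nat.find_min' hex (m := a.val) (by rwa [ZMod.natCast_zmod_val])) ?_
    exact ZMod.val_lt a
  refine ⟨Nat.find hex, ?_, hlt, Nat.find_spec hex⟩
  have h0 : Nat.find hex ≠ 0 := by
    intro h
    apply Nat.find_spec hex
    rw [h]
    exact ⟨0, by simp⟩
  have h1 : Nat.find hex ≠ 1 := by
    intro h
    apply Nat.find_spec hex
    rw [h]
    exact ⟨1, by simp⟩
  by_contra hnp
  have hmf := Nat.minFac_prime h1
  obtain ⟨k, hk⟩ := Nat.minFac_dvd (Nat.find hex)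
  have hlt1 : (Nat.find hex).minFac < Nat.find hex :=
    (Nat.not_prime_iff_minFac_lt (by omega)).1 hnp
  have hk0 : k ≠ 0 := by
    rintro rfl
    rw [mul_zero] at hk
    exact h0 hk
  have hlt2 : k < Nat.find hex := by
    have := hmf.two_le
    calc k < 2 * k := by omega
      _ ≤ (Nat.find hex).minFac * k := Nat.mul_le_mul_right k this
      _ = Nat.find hex := hk.symm
  have s1 := not_not.1 (Nat.find_min hex hlt1)
  have s2 := not_not.1 (Nat.find_min hex hlt2)
  apply Nat.find_spec hex
  rw [hk, Nat.cast_mul]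
  exact s1.mul s2

lemma splits_of_sq {F : Type} [Field F] {a : F} (h : IsSquare a) (b : F) :
    Splits a b := by
  obtain ⟨s, hs⟩ := h
  refine ⟨1, 0, s, Or.inl one_ne_zero, ?_⟩
  rw [hs]
  ring

lemma not_sq_of_dvd {r : ℕ} [hr : Fact r.Prime] {m : ℤ} (hm : ¬ (r : ℤ) ∣ m) :
    ¬ IsSquare ((((r : ℤ) * m : ℤ)) : ℚ_[r]) := by
  rintro ⟨s, hs⟩
  refine padic_parity (p := r) (m := m) (m' := 1) (c := 1) (c' := s) hm ?_ one_ne_zero ?_
  · intro h
    have h1 := Int.le_of_dvd one_pos h
    have h2 := hr.out.two_le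
    omega
  · rw [hs]
    push_cast
    ring

open Classical in
/-- the core: `S` contains the real place -/
lemma places_core {S : Set (Option Nat.Primes)} (hS : none ∈ S)
    (h : ∀ l : ℕ, l.Prime → ∀ e : ℤ, IsTest e →
      Even (S ∩ ram (diag (-(l : ℤ))) e).ncard) : S = Set.univ := by
  by_contra hne
  have hex : ∃ l : ℕ, ∃ hl : l.Prime, (some ⟨l, hl⟩ : Option Nat.Primes) ∉ S := by
    by_contra hno
    apply hne
    rw [Set.eq_univ_iff_forall]
    intro v
    cases v with
    | none => exact hS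
    | some p =>
      by_contra hp
      exact hno ⟨(p : ℕ), p.2, hp⟩
  obtain ⟨hl, hlS⟩ := Nat.find_spec hex
  have hmin : ∀ r : ℕ, ∀ hr : r.Prime, r < Nat.find hex →
      (some ⟨r, hr⟩ : Option Nat.Primes) ∈ S := by
    intro r hr hlt
    by_contra hno
    exact Nat.find_min hex hlt ⟨hr, hno⟩
  generalize Nat.find hex = l at hl hlS hmin
  have : Fact l.Prime := ⟨hl⟩
  have hl0 : (-(l : ℤ)) ≠ 0 := neg_ne_zero.2 (by exact_mod_cast hl.ne_zero)
  -- the family
  let a : Fam := ⟨((-(l : ℤ) : ℤ) : ℝ), fun p => if (some p : Option Nat.Primes) ∈ S then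
    ((-(l : ℤ) : ℤ) : ℚ_[(p : ℕ)]) else 1⟩
  have hpa : ∀ p : Nat.Primes, a.pa p = if (some p : Option Nat.Primes) ∈ S then
    ((-(l : ℤ) : ℤ) : ℚ_[(p : ℕ)]) else 1 := fun p => rfl
  have hram : ∀ e : ℤ, ram a e = S ∩ ram (diag (-(l : ℤ))) e := by
    intro e
    ext v
    cases v with
    | none => exact ⟨fun hv => ⟨hS, hv⟩, fun hv => hv.2⟩
    | some p =>
      by_cases hp : (some p : Option Nat.Primes) ∈ S
      · constructor
        · intro hv
          refine ⟨hp, ?_⟩
          change ¬ Splits (a.pa p) _ at hv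
          rw [hpa, if_pos hp] at hv
          exact hv
        · intro hv
          change ¬ Splits (a.pa p) _
          rw [hpa, if_pos hp]
          exact hv.2
      · constructor
        · intro hv
          change ¬ Splits (a.pa p) _ at hv
          rw [hpa, if_neg hp] at hv
          exact absurd (splits_of_sq ⟨1, by ring⟩ _) hv
        · exact fun hv => absurd hv.1 hp
  obtain ⟨n, hn, hnr, hnp⟩ := hexact a (by
      change ((-(l : ℤ) : ℤ) : ℝ) ≠ 0
      exact Int.cast_ne_zero.2 hl0) (by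
      intro p
      rw [hpa]
      split_ifs
      · exact Int.cast_ne_zero.2 hl0
      · exact one_ne_zero) (by
      apply Set.Finite.subset Set.finite_empty
      intro p hp
      exfalso
      by_cases hpS : (some p : Option Nat.Primes) ∈ S
      · refine hp (-(l : ℤ)) 1 ?_ (by rw [hpa, if_pos hpS]; ring)
        intro hd
        have h1 : (p : ℕ) ∣ l := by
          rw [Int.dvd_neg] at hd
          exact_mod_cast hd
        have h2 := (Nat.prime_dvd_prime_iff_eq p.2 hl).1 h1
        apply hlS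
        have h3 : p = ⟨l, hl⟩ := Subtype.ext h2
        rw [← h3]
        exact hpS
      · refine hp 1 1 ?_ (by rw [hpa, if_neg hpS]; norm_num)
        intro hd
        have h1 := Int.le_of_dvd one_pos hd
        have h2 := p.2.two_le
        omega) (fun e he _ => by rw [hram]; exact h l hl e he)
  have hn0 : n ≠ 0 := hn.ne_zero
  have hin : ∀ p : Nat.Primes, (some p : Option Nat.Primes) ∈ S →
      IsSquare (((-(l : ℤ) : ℤ) : ℚ_[(p : ℕ)]) * (n : ℚ_[(p : ℕ)])) := by
    intro p hp
    have h1 := hnp p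
    rw [hpa, if_pos hp] at h1
    exact h1
  have hout : ∀ p : Nat.Primes, (some p : Option Nat.Primes) ∉ S →
      IsSquare (n : ℚ_[(p : ℕ)]) := by
    intro p hp
    have h1 := hnp p
    rw [hpa, if_neg hp, one_mul] at h1
    exact h1
  -- `n = -1`
  have hneg : n < 0 := by
    obtain ⟨s, hs⟩ := hnr
    have h1 : ((-(l : ℤ) : ℤ) : ℝ) * n = s * s := hs
    have hl1 : (0 : ℝ) < l := by exact_mod_cast hl.pos
    have h2 : (0 : ℝ) ≤ s * s := mul_self_nonneg s
    have h3 : (n : ℝ) ≤ 0 := by
      push_cast at h1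
      by_contra hc
      push Not at hc
      nlinarith
    have h4 : n ≤ 0 := by exact_mod_cast h3
    omega
  have hnu : n.natAbs = 1 := by
    by_contra hc
    obtain ⟨r, hr, hrd⟩ := Nat.exists_prime_and_dvd hc
    have : Fact r.Prime := ⟨hr⟩
    obtain ⟨m, hm⟩ : (r : ℤ) ∣ n := Int.natCast_dvd.2 hrd
    have hmd : ¬ (r : ℤ) ∣ m := by
      rintro ⟨k, hk⟩
      have h1 : (r : ℤ) * r ∣ n := ⟨k, by rw [hm, hk]; ring⟩
      have h2 := Int.isUnit_iff.1 (hn _ h1)
      have := hr.two_le
      omega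
    by_cases hrS : (some ⟨r, hr⟩ : Option Nat.Primes) ∈ S
    · have hq := hin ⟨r, hr⟩ hrS
      have hrl : ¬ (r : ℤ) ∣ -(l : ℤ) := by
        intro hd
        have h1 : r ∣ l := by
          rw [Int.dvd_neg] at hd
          exact_mod_cast hd
        have h2 := (Nat.prime_dvd_prime_iff_eq hr hl).1 h1
        subst h2
        exact hlS hrS
      have h3 : ¬ (r : ℤ) ∣ -(l : ℤ) * m := by
        intro hd
        rcases (Nat.prime_iff_prime_int.1 hr).dvd_or_dvd hd with h4 | h4
        · exact hrl h4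
        · exact hmd h4
      apply not_sq_of_dvd h3
      have h5 : (((r : ℤ) * (-(l : ℤ) * m) : ℤ) : ℚ_[r]) = ((-(l : ℤ) : ℤ) : ℚ_[r]) * (n : ℚ_[r]) := by
        rw [hm]
        push_cast
        ring
      rw [h5]
      exact hq
    · have hq := hout ⟨r, hr⟩ hrS
      apply not_sq_of_dvd hmd
      rw [← hm]
      exact hq
  have hn1 : n = -1 := by omega
  subst hn1
  -- `-1` is a square at `l`
  have hsl : IsSquare ((-1 : ℤ) : ℚ_[l]) := hout ⟨l, hl⟩ hlS
  have hlodd : l ≠ 2 := by
    intro h2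
    subst h2
    have h3 := ((Pool.Agent.W108.BMX.two4 (-1) (by norm_num)).1).1
      (splits_of_sq hsl _)
    norm_num at h3
  have hl4 : l % 4 = 1 := by
    have h3 := (Pool.Agent.W335.BMX.odd3 l hlodd 1 (-1) (by
      intro hd
      have h1 := Int.le_of_dvd one_pos hd
      have h2 := hl.two_le
      omega) (by
      intro hd
      have h1 := Int.le_of_dvd one_pos (dvd_neg.1 hd)
      have h2 := hl.two_le
      omega)).1 (splits_swap (splits_of_sq hsl _))
    have h4 : ((( -1 : ℤ)) : ZMod l) ≠ 0 := by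
      intro h5
      rw [ZMod.intCast_zmod_eq_zero_iff_dvd] at h5
      have h1 := Int.le_of_dvd one_pos (dvd_neg.1 h5)
      have h2 := hl.two_le
      omega
    have h5 := (legendreSym.eq_one_iff l h4).1 h3
    push_cast at h5
    have h6 := (ZMod.exists_sq_eq_neg_one_iff (p := l)).1 h5
    have h7 := hl.eq_two_or_odd
    omega
  -- `l` is a square at the primes `r < l`
  obtain ⟨r, hr, hrl, hrn⟩ := prime_nonres (l := l) hlodd
  have : Fact r.Prime := ⟨hr⟩
  have hsr : IsSquare ((l : ℤ) : ℚ_[r]) := by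
    have hq := hin ⟨r, hr⟩ (hmin r hr hrl)
    have h5 : (((-(l : ℤ) : ℤ)) : ℚ_[r]) * ((-1 : ℤ) : ℚ_[r]) = ((l : ℤ) : ℚ_[r]) := by
      push_cast
      ring
    rw [← h5]
    exact hq
  have hl0' : ((l : ℤ) : ℚ_[r]) ≠ 0 := Int.cast_ne_zero.2 (by exact_mod_cast hl.ne_zero)
  have hr0 : ((r : ℤ) : ZMod l) ≠ 0 := by
    intro h5
    rw [ZMod.intCast_zmod_eq_zero_iff_dvd] at h5
    have h1 := Int.le_of_dvd (by exact_mod_cast hr.pos) h5
    omega
  by_cases hr2 : r = 2
  · subst hr2
    have h3 := (Pool.Agent.W975.BMX.two3 1 (l : ℤ) (by norm_num) (by omega)).1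
      (splits_swap (splits_of_sq hsr _))
    apply hrn
    have h4 := (ZMod.exists_sq_eq_two_iff (p := l) hlodd).2 (by omega)
    exact_mod_cast h4
  · have hrl' : ¬ (r : ℤ) ∣ (l : ℤ) := by
      intro hd
      have h1 : r ∣ l := by exact_mod_cast hd
      have h2 := (Nat.prime_dvd_prime_iff_eq hr hl).1 h1
      omega
    have h3 := (Pool.Agent.W335.BMX.odd3 r hr2 1 (l : ℤ) (by
      intro hd
      have h1 := Int.le_of_dvd one_pos hd
      have h2 := hr.two_le
      omega) hrl').1 (splits_swap (splits_of_sq hsr _))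
    have h4 := legendreSym.quadratic_reciprocity_one_mod_four (p := l) (q := r) hl4 hr2
    rw [h3] at h4
    have h5 := (legendreSym.eq_one_iff l hr0).1 h4.symm
    apply hrn
    exact_mod_cast h5

/-- the ramification sets are finite -/
lemma ram_diag_fin {m q : ℤ} (hm : m ≠ 0) (hq : q ≠ 0) : (ram (diag m) q).Finite := by
  have h1 : {p : Nat.Primes | (p : ℕ) ≤ max m.natAbs (max 2 q.natAbs)}.Finite := by
    have h2 : (Set.Iic (max m.natAbs (max 2 q.natAbs))).Finite := Set.finite_Iic _
    exact h2.preimage (Subtype.val_injective.injOn)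
  apply ((h1.image some).insert none).subset
  intro v hv
  match v with
  | none => exact Or.inl rfl
  | some p =>
    refine Or.inr ⟨p, ?_, rfl⟩
    by_contra hpz
    have hpz' : max m.natAbs (max 2 q.natAbs) < (p : ℕ) := not_le.1 hpz
    apply hv
    refine Pool.Agent.W335.BMX.odd2 _ (by omega) m q ?_ ?_
    · intro h
      have h3 := Nat.le_of_dvd (Int.natAbs_pos.2 hm) (Int.natCast_dvd.1 h)
      omega
    · intro h
      have h3 := Nat.le_of_dvd (Int.natAbs_pos.2 hq) (Int.natCast_dvd.1 h)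
      omega

lemma test_ne {e : ℤ} (he : IsTest e) : e ≠ 0 := by
  rcases he with rfl | rfl | ⟨h1, h2⟩
  · norm_num
  · norm_num
  · rintro rfl
    norm_num at h2

/-- **Sets of places.** A set of places which meets all ramification sets of the quaternion algebras
`(q₁, q₂)` in an even number of places is empty or contains all the places. -/
theorem places {S : Set (Option Nat.Primes)}
    (h : ∀ q₁ : ℤ, q₁ ≠ 0 → ∀ q₂ : ℤ, q₂ ≠ 0 → Even (S ∩ ram (diag q₁) q₂).ncard) :
    S = ∅ ∨ S = Set.univ := by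
  by_cases hS : none ∈ S
  · exact Or.inr (places_core hS fun l hl e he =>
      h _ (neg_ne_zero.2 (by exact_mod_cast hl.ne_zero)) e (test_ne he))
  · left
    have h1 : Sᶜ = Set.univ := by
      apply places_core hS
      intro l hl e he
      have hsq : Squarefree (-(l : ℤ)) := by
        rw [← Int.squarefree_natAbs]
        simp only [Int.natAbs_neg, Int.natAbs_natCast]
        exact hl.squarefree
      obtain ⟨f1, f2⟩ := hrec _ hsq e he
      have f3 := h _ (neg_ne_zero.2 (by exact_mod_cast hl.ne_zero) : (-(l : ℤ)) ≠ 0) e (test_ne he)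
      have f4 := Set.ncard_inter_add_ncard_sdiff_eq_ncard (ram (diag (-(l : ℤ))) e) S f1
      rw [Set.inter_comm] at f4
      have f5 : Sᶜ ∩ ram (diag (-(l : ℤ))) e = ram (diag (-(l : ℤ))) e \ S := by
        rw [Set.inter_comm]
        rfl
      rw [f5]
      rw [← f4] at f2
      exact (Nat.even_add.1 f2).1 f3
    rw [← compl_compl S, h1, Set.compl_univ]

end Pool.Agent.Q284.ZC
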