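import Pool.Agent.Q284.ZC.Hom

/-!
# The class of a zero-cycle
-/

set_option autoImplicit false

open WeierstrassCurve Polynomial nonZeroDivisors

namespace Pool.Agent.Q284.ZC

open Pool.Agent.H437R2.Man.MW (crv crv_eqn crv_nonsing)

open Pool.Agent.Q284.FDQ (vl vl_zero vl_some vl_root vl_ne vl_prod sq_third)

open WeierstrassCurve.Affine (CoordinateRing)

section

variable {K : Type} [Field K] [CharZero K] {W : WeierstrassCurve K} {e1 e2 e3 : K}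

/-- the classes of a point are given by nonzero elements -/
def HC (e1 e2 e3 : K) (S : W.toAffine.Point) (g1 g2 g3 : K) : Prop :=
  Cls e1 e2 e3 S g1 g2 g3 ∧ g1 ≠ 0 ∧ g2 ≠ 0 ∧ g3 ≠ 0

omit [CharZero K] in
lemma hc_zero : HC (W := W) e1 e2 e3 0 1 1 1 :=
  ⟨cls_zero ⟨1, by ring⟩ ⟨1, by ring⟩ ⟨1, by ring⟩, one_ne_zero, one_ne_zero, one_ne_zero⟩

lemma hc_add [DecidableEq K] (hW : W = crv (-e1) (-e2) (-e3)) (h12 : e1 ≠ e2) (h13 : e1 ≠ e3)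
    (h23 : e2 ≠ e3) {P Q : W.toAffine.Point} {a1 a2 a3 b1 b2 b3 : K}
    (hP : HC e1 e2 e3 P a1 a2 a3) (hQ : HC e1 e2 e3 Q b1 b2 b3) :
    HC e1 e2 e3 (P + Q) (a1 * b1) (a2 * b2) (a3 * b3) := by
  have c1 : (e1 - e2) * (e1 - e3) ≠ 0 := mul_ne_zero (sub_ne_zero.2 h12) (sub_ne_zero.2 h13)
  have c2 : (e2 - e1) * (e2 - e3) ≠ 0 :=
    mul_ne_zero (sub_ne_zero.2 h12.symm) (sub_ne_zero.2 h23)
  have c3 : (e3 - e1) * (e3 - e2) ≠ 0 :=
    mul_ne_zero (sub_ne_zero.2 h13.symm) (sub_ne_zero.2 h23.symm)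
  obtain ⟨s1, s2, s3⟩ := add_cls hW h12 h13 h23 P Q
  have comb : ∀ {s p q a b : K}, p ≠ 0 → q ≠ 0 → IsSquare (s * (p * q)) → IsSquare (p * a) →
      IsSquare (q * b) → IsSquare (s * (a * b)) := by
    rintro s p q a b hp hq ⟨r, hr⟩ ⟨t, ht⟩ ⟨u, hu⟩
    refine ⟨r * t * u / (p * q), ?_⟩
    field_simp
    linear_combination (p * a) * (q * b) * hr + (r * r) * (q * b) * ht + (r * r) * (t * t) * hu
  exact ⟨⟨comb (vl_ne P c1) (vl_ne Q c1) s1 hP.1.1 hQ.1.1,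
    comb (vl_ne P c2) (vl_ne Q c2) s2 hP.1.2.1 hQ.1.2.1,
    comb (vl_ne P c3) (vl_ne Q c3) s3 hP.1.2.2 hQ.1.2.2⟩, mul_ne_zero hP.2.1 hQ.2.1,
    mul_ne_zero hP.2.2.1 hQ.2.2.1, mul_ne_zero hP.2.2.2 hQ.2.2.2⟩

omit [CharZero K] in
lemma vl_neg (P : W.toAffine.Point) (e c : K) : vl (-P) e c = vl P e c := by
  rcases P with _ | ⟨x, y, h⟩
  · rfl
  · rw [Affine.Point.neg_some]
    by_cases h0 : x - e = 0
    · rw [vl_root _ _ _ h0, vl_root _ _ _ h0]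
    · rw [vl_some _ _ _ h0, vl_some _ _ _ h0]

omit [CharZero K] in
lemma hc_neg {P : W.toAffine.Point} {a1 a2 a3 : K} (hP : HC e1 e2 e3 P a1 a2 a3) :
    HC e1 e2 e3 (-P) a1⁻¹ a2⁻¹ a3⁻¹ := by
  obtain ⟨⟨h1, h2, h3⟩, n1, n2, n3⟩ := hP
  have key : ∀ {v a : K}, a ≠ 0 → IsSquare (v * a) → IsSquare (v * a⁻¹) := by
    rintro v a ha ⟨r, hr⟩
    refine ⟨r / a, ?_⟩
    field_simp
    linear_combination hr
  refine ⟨⟨?_, ?_, ?_⟩, inv_ne_zero n1, inv_ne_zero n2, inv_ne_zero n3⟩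
  · rw [vl_neg]; exact key n1 h1
  · rw [vl_neg]; exact key n2 h2
  · rw [vl_neg]; exact key n3 h3

lemma hc_nsmul [DecidableEq K] (hW : W = crv (-e1) (-e2) (-e3)) (h12 : e1 ≠ e2) (h13 : e1 ≠ e3)
    (h23 : e2 ≠ e3) {P : W.toAffine.Point} {a1 a2 a3 : K} (hP : HC e1 e2 e3 P a1 a2 a3)
    (n : ℕ) : HC e1 e2 e3 (n • P) (a1 ^ n) (a2 ^ n) (a3 ^ n) := by
  induction n with
  | zero =>
    rw [zero_nsmul, pow_zero, pow_zero, pow_zero]
    exact hc_zero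
  | succ n ih =>
    rw [succ_nsmul, pow_succ, pow_succ, pow_succ]
    exact hc_add hW h12 h13 h23 ih hP

lemma hc_zsmul [DecidableEq K] (hW : W = crv (-e1) (-e2) (-e3)) (h12 : e1 ≠ e2) (h13 : e1 ≠ e3)
    (h23 : e2 ≠ e3) {P : W.toAffine.Point} {a1 a2 a3 : K} (hP : HC e1 e2 e3 P a1 a2 a3)
    (n : ℤ) : HC e1 e2 e3 (n • P) (a1 ^ n) (a2 ^ n) (a3 ^ n) := by
  rcases n.eq_nat_or_neg with ⟨m, rfl | rfl⟩
  · rw [natCast_zsmul, zpow_natCast, zpow_natCast, zpow_natCast]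
    exact hc_nsmul hW h12 h13 h23 hP m
  · rw [neg_smul, natCast_zsmul, zpow_neg, zpow_neg, zpow_neg, zpow_natCast, zpow_natCast,
      zpow_natCast]
    exact hc_neg (hc_nsmul hW h12 h13 h23 hP m)

lemma hc_sum [DecidableEq K] (hW : W = crv (-e1) (-e2) (-e3)) (h12 : e1 ≠ e2) (h13 : e1 ≠ e3)
    (h23 : e2 ≠ e3) {ι : Type} (s : Finset ι) (P : ι → W.toAffine.Point) (a1 a2 a3 : ι → K)
    (h : ∀ i, HC e1 e2 e3 (P i) (a1 i) (a2 i) (a3 i)) :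
    HC e1 e2 e3 (∑ i ∈ s, P i) (∏ i ∈ s, a1 i) (∏ i ∈ s, a2 i) (∏ i ∈ s, a3 i) := by
  classical
  induction s using Finset.induction_on with
  | empty =>
    rw [Finset.sum_empty, Finset.prod_empty, Finset.prod_empty, Finset.prod_empty]
    exact hc_zero
  | insert i s hi ih =>
    rw [Finset.sum_insert hi, Finset.prod_insert hi, Finset.prod_insert hi,
      Finset.prod_insert hi]
    exact hc_add hW h12 h13 h23 (h i) ih

/-- the residue fields are finite extensions -/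
lemma residue_finite (𝔪 : Ideal W.toAffine.CoordinateRing) [h : 𝔪.IsMaximal] :
    Module.Finite K (W.toAffine.CoordinateRing ⧸ 𝔪) := by
  haveI : Module.Finite K[X] W.toAffine.CoordinateRing :=
    Module.Finite.of_basis (CoordinateRing.basis W.toAffine)
  haveI h1 : Algebra.FiniteType K W.toAffine.CoordinateRing :=
    Algebra.FiniteType.trans (S := K[X]) inferInstance inferInstance
  haveI h2 : Algebra.FiniteType K (W.toAffine.CoordinateRing ⧸ 𝔪) :=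
    Algebra.FiniteType.of_surjective (Ideal.Quotient.mkₐ K 𝔪)
      (Ideal.Quotient.mkₐ_surjective K 𝔪)
  letI : Field (W.toAffine.CoordinateRing ⧸ 𝔪) := Ideal.Quotient.field 𝔪
  exact finite_of_finite_type_of_isJacobsonRing K (W.toAffine.CoordinateRing ⧸ 𝔪)

open Classical in
/-- the value of `x - e` at a closed point, modulo squares -/
noncomputable def cval (𝔪 : Ideal W.toAffine.CoordinateRing) (e c : K) : K :=
  Algebra.norm K (if Ideal.Quotient.mk 𝔪 (CoordinateRing.mk W.toAffine (C X)) -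
      algebraMap K (W.toAffine.CoordinateRing ⧸ 𝔪) e = 0 then
      algebraMap K (W.toAffine.CoordinateRing ⧸ 𝔪) c
    else Ideal.Quotient.mk 𝔪 (CoordinateRing.mk W.toAffine (C X)) -
      algebraMap K (W.toAffine.CoordinateRing ⧸ 𝔪) e)

/-- the classes of a maximal ideal -/
theorem max_cls [DecidableEq K] (hW : W = crv (-e1) (-e2) (-e3)) (h12 : e1 ≠ e2)
    (h13 : e1 ≠ e3) (h23 : e2 ≠ e3) (𝔪 : Ideal W.toAffine.CoordinateRing) [h : 𝔪.IsMaximal] :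
    IsUnit (𝔪 : FractionalIdeal W.toAffine.CoordinateRing⁰ W.toAffine.FunctionField) ∧
    ∃ Q : W.toAffine.Point, cl 𝔪 = (Affine.Point.toClass Q).toMul ∧
      HC e1 e2 e3 Q (cval 𝔪 e1 ((e1 - e2) * (e1 - e3))) (cval 𝔪 e2 ((e2 - e1) * (e2 - e3)))
        (cval 𝔪 e3 ((e3 - e1) * (e3 - e2))) := by
  letI : Field (W.toAffine.CoordinateRing ⧸ 𝔪) := Ideal.Quotient.field 𝔪
  haveI : FiniteDimensional K (W.toAffine.CoordinateRing ⧸ 𝔪) := residue_finite 𝔪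
  have hker : RingHom.ker (Ideal.Quotient.mkₐ K 𝔪) = 𝔪 := Ideal.Quotient.mkₐ_ker K 𝔪
  obtain ⟨Q, q1, q2, q3⟩ := cl_ker hW h12 h13 h23 (Ideal.Quotient.mkₐ K 𝔪)
    (Ideal.Quotient.mkₐ_surjective K 𝔪)
  rw [hker] at q1 q2
  have c1 : (e1 - e2) * (e1 - e3) ≠ 0 := mul_ne_zero (sub_ne_zero.2 h12) (sub_ne_zero.2 h13)
  have c2 : (e2 - e1) * (e2 - e3) ≠ 0 :=
    mul_ne_zero (sub_ne_zero.2 h12.symm) (sub_ne_zero.2 h23)
  have c3 : (e3 - e1) * (e3 - e2) ≠ 0 :=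
    mul_ne_zero (sub_ne_zero.2 h13.symm) (sub_ne_zero.2 h23.symm)
  have hwne : ∀ (e c : K), c ≠ 0 → Algebra.norm K
      (w ((Ideal.Quotient.mkₐ K 𝔪) (CoordinateRing.mk W.toAffine (C X))) e c) ≠ 0 := by
    intro e c hc
    rw [Algebra.norm_ne_zero_iff]
    unfold w
    split_ifs with h3
    · exact (_root_.map_ne_zero _).2 hc
    · exact h3
  exact ⟨q1, Q, q2, q3, hwne _ _ c1, hwne _ _ c2, hwne _ _ c3⟩

/-- **The classes of a zero-cycle.** -/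
theorem cycle_cls [DecidableEq K] (hW : W = crv (-e1) (-e2) (-e3)) (h12 : e1 ≠ e2)
    (h13 : e1 ≠ e3) (h23 : e2 ≠ e3) (z : MaximalSpectrum W.toAffine.CoordinateRing →₀ ℤ) :
    ∃ S : W.toAffine.Point, (z.prod fun 𝔪 n => cl 𝔪.asIdeal ^ n) =
        (Affine.Point.toClass S).toMul ∧
      HC e1 e2 e3 S (z.prod fun 𝔪 n => cval 𝔪.asIdeal e1 ((e1 - e2) * (e1 - e3)) ^ n)
        (z.prod fun 𝔪 n => cval 𝔪.asIdeal e2 ((e2 - e1) * (e2 - e3)) ^ n)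
        (z.prod fun 𝔪 n => cval 𝔪.asIdeal e3 ((e3 - e1) * (e3 - e2)) ^ n) := by
  choose hu Q q1 q2 using fun 𝔪 : MaximalSpectrum W.toAffine.CoordinateRing =>
    haveI := 𝔪.isMaximal
    max_cls hW h12 h13 h23 𝔪.asIdeal
  refine ⟨∑ 𝔪 ∈ z.support, z 𝔪 • Q 𝔪, ?_, ?_⟩
  · rw [map_sum, toMul_sum]
    unfold Finsupp.prod
    refine Finset.prod_congr rfl fun 𝔪 _ => ?_
    rw [map_zsmul, toMul_zsmul, ← q1]
  · unfold Finsupp.prod
    exact hc_sum hW h12 h13 h23 z.support (fun 𝔪 => z 𝔪 • Q 𝔪) _ _ _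
      (fun 𝔪 => hc_zsmul hW h12 h13 h23 (q2 𝔪) (z 𝔪))

end

end Pool.Agent.Q284.ZC
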