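import Pool.Agent.Q284.ZC.Cl2

/-!
# The classes of a sum
-/

set_option autoImplicit false

open WeierstrassCurve Polynomial

namespace Pool.Agent.Q284.ZC

open Pool.Agent.H437R2.Man.MW (crv crv_eqn crv_nonsing)

open Pool.Agent.Q284.FDQ (vl vl_zero vl_some vl_root vl_ne vl_prod sq_third perm12 perm13 perm23)

section

variable {K : Type} [Field K]

/-- two different points of order two -/
lemma mul_tt' {W : WeierstrassCurve K} {e1 e2 e3 : K} (h12 : e1 ≠ e2) (h13 : e1 ≠ e3)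
    (h23 : e2 ≠ e3) {x1 y1 x2 y2 x3 y3 : K} (n1 : W.toAffine.Nonsingular x1 y1)
    (n2 : W.toAffine.Nonsingular x2 y2) (n3 : W.toAffine.Nonsingular x3 y3)
    (hx1 : x1 = e1) (hx2 : x2 = e2) (hx3 : x3 = e3) : Cls e1 e2 e3
      (Affine.Point.some _ _ n3 : W.toAffine.Point)
      (vl (W := W) (Affine.Point.some _ _ n1) e1 ((e1 - e2) * (e1 - e3)) *
      vl (W := W) (Affine.Point.some _ _ n2) e1 ((e1 - e2) * (e1 - e3)))
      (vl (W := W) (Affine.Point.some _ _ n1) e2 ((e2 - e1) * (e2 - e3)) *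
      vl (W := W) (Affine.Point.some _ _ n2) e2 ((e2 - e1) * (e2 - e3)))
      (vl (W := W) (Affine.Point.some _ _ n1) e3 ((e3 - e1) * (e3 - e2)) *
      vl (W := W) (Affine.Point.some _ _ n2) e3 ((e3 - e1) * (e3 - e2))) := by
  subst hx1 hx2 hx3
  refine ⟨?_, ?_, ?_⟩
  · have := tors3 (W := W) h12 h13 n1 n2 n3
    convert this using 1
    ring
  · have := tors3 (W := W) h12.symm h23 n2 n1 n3
    convert this using 1
    ring
  · have := tors3 (W := W) h13.symm h23.symm n3 n1 n2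
    convert this using 1

/-- the third point of a line -/
theorem line_cls [CharZero K] {W : WeierstrassCurve K} {e1 e2 e3 : K}
    (hW : W = crv (-e1) (-e2) (-e3)) (h12 : e1 ≠ e2) (h13 : e1 ≠ e3) (h23 : e2 ≠ e3)
    {x1 y1 x2 y2 x3 y3 : K} (n1 : W.toAffine.Nonsingular x1 y1)
    (n2 : W.toAffine.Nonsingular x2 y2) (n3 : W.toAffine.Nonsingular x3 y3) (hx : x1 ≠ x2)
    (hx3 : x3 = ((y1 - y2) / (x1 - x2)) ^ 2 + e1 + e2 + e3 - x1 - x2) : Cls e1 e2 e3
      (Affine.Point.some _ _ n3 : W.toAffine.Point)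
      (vl (W := W) (Affine.Point.some _ _ n1) e1 ((e1 - e2) * (e1 - e3)) *
      vl (W := W) (Affine.Point.some _ _ n2) e1 ((e1 - e2) * (e1 - e3)))
      (vl (W := W) (Affine.Point.some _ _ n1) e2 ((e2 - e1) * (e2 - e3)) *
      vl (W := W) (Affine.Point.some _ _ n2) e2 ((e2 - e1) * (e2 - e3)))
      (vl (W := W) (Affine.Point.some _ _ n1) e3 ((e3 - e1) * (e3 - e2)) *
      vl (W := W) (Affine.Point.some _ _ n2) e3 ((e3 - e1) * (e3 - e2))) := by
  have c1 : (e1 - e2) * (e1 - e3) ≠ 0 := mul_ne_zero (sub_ne_zero.2 h12) (sub_ne_zero.2 h13)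
  have c2 : (e2 - e1) * (e2 - e3) ≠ 0 :=
    mul_ne_zero (sub_ne_zero.2 h12.symm) (sub_ne_zero.2 h23)
  have c3 : (e3 - e1) * (e3 - e2) ≠ 0 :=
    mul_ne_zero (sub_ne_zero.2 h13.symm) (sub_ne_zero.2 h23.symm)
  have E1 := eqn hW n1
  have E2 := eqn hW n2
  by_cases hy : y1 = 0 ∧ y2 = 0
  · obtain ⟨hy1, hy2⟩ := hy
    rw [hy1] at E1
    rw [hy2] at E2
    have hm : x3 = e1 + e2 + e3 - x1 - x2 := by rw [hx3, hy1, hy2]; ring
    have hx1 : x1 = e1 ∨ x1 = e2 ∨ x1 = e3 := by
      have h0 : (x1 - e1) * (x1 - e2) * (x1 - e3) = 0 := by rw [← E1]; ring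
      rcases mul_eq_zero.1 h0 with h0 | h0
      · rcases mul_eq_zero.1 h0 with h0 | h0
        · exact Or.inl (sub_eq_zero.1 h0)
        · exact Or.inr (Or.inl (sub_eq_zero.1 h0))
      · exact Or.inr (Or.inr (sub_eq_zero.1 h0))
    have hx2 : x2 = e1 ∨ x2 = e2 ∨ x2 = e3 := by
      have h0 : (x2 - e1) * (x2 - e2) * (x2 - e3) = 0 := by rw [← E2]; ring
      rcases mul_eq_zero.1 h0 with h0 | h0
      · rcases mul_eq_zero.1 h0 with h0 | h0
        · exact Or.inl (sub_eq_zero.1 h0)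
        · exact Or.inr (Or.inl (sub_eq_zero.1 h0))
      · exact Or.inr (Or.inr (sub_eq_zero.1 h0))
    rcases hx1 with hx1 | hx1 | hx1
    · rcases hx2 with hx2 | hx2 | hx2
      · exact absurd (hx1.trans hx2.symm) hx
      · exact mul_tt' h12 h13 h23 n1 n2 n3 hx1 hx2 (by rw [hm, hx1, hx2]; ring)
      · exact cls_perm23 (mul_tt' h13 h12 h23.symm n1 n2 n3 hx1 hx2 (by rw [hm, hx1, hx2]; ring))
    · rcases hx2 with hx2 | hx2 | hx2
      · exact cls_perm12 (mul_tt' h12.symm h23 h13 n1 n2 n3 hx1 hx2 (by rw [hm, hx1, hx2]; ring))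
      · exact absurd (hx1.trans hx2.symm) hx
      · exact cls_perm12 (cls_perm23 (mul_tt' h23 h12.symm h13.symm n1 n2 n3 hx1 hx2
          (by rw [hm, hx1, hx2]; ring)))
    · rcases hx2 with hx2 | hx2 | hx2
      · exact cls_perm23 (cls_perm12 (mul_tt' h13.symm h23.symm h12 n1 n2 n3 hx1 hx2
          (by rw [hm, hx1, hx2]; ring)))
      · obtain ⟨k1, k2, k3⟩ := mul_tt' (W := W) h23.symm h13.symm h12.symm n1 n2 n3 hx1 hx2
          (by rw [hm, hx1, hx2]; ring)
        rw [mul_comm (e3 - e2) (e3 - e1)] at k1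
        rw [mul_comm (e2 - e3) (e2 - e1)] at k2
        rw [mul_comm (e1 - e3) (e1 - e2)] at k3
        exact ⟨k3, k2, k1⟩
      · exact absurd (hx1.trans hx2.symm) hx
  · -- the line through the two points
    have hx' : x1 - x2 ≠ 0 := sub_ne_zero.2 hx
    obtain ⟨m, hm⟩ : ∃ m : K, m = (y1 - y2) / (x1 - x2) := ⟨_, rfl⟩
    have hm' : m * (x1 - x2) = y1 - y2 := by rw [hm]; field_simp
    rw [← hm] at hx3
    obtain ⟨c, hc⟩ : ∃ c : K, c = y1 - m * x1 := ⟨_, rfl⟩
    have l1 : y1 = m * x1 + c := by rw [hc]; ring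
    have l2 : y2 = m * x2 + c := by rw [hc]; linear_combination hm'
    -- f(x) - (m x + c)² = (x - x1) (x - x2) (x - x3)
    have key : ∀ x : K, (x - e1) * (x - e2) * (x - e3) - (m * x + c) ^ 2 =
        (x - x1) * (x - x2) * (x - x3) := by
      have g1 : (x1 - e1) * (x1 - e2) * (x1 - e3) - (m * x1 + c) ^ 2 = 0 := by
        rw [← l1, ← E1]; ring
      have g2 : (x2 - e1) * (x2 - e2) * (x2 - e3) - (m * x2 + c) ^ 2 = 0 := by
        rw [← l2, ← E2]; ring
      intro x
      have h3 : (x1 - x2) * ((x - e1) * (x - e2) * (x - e3) - (m * x + c) ^ 2 -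
          (x - x1) * (x - x2) * (x - x3)) = 0 := by
        rw [hx3]
        linear_combination (x - x2) * g1 - (x - x1) * g2
      rcases mul_eq_zero.1 h3 with h4 | h4
      · exact absurd h4 hx'
      · exact sub_eq_zero.1 h4
    have hv1 := vl_prod hW h12 h13 h23 (Affine.Point.some _ _ n1)
    have hv2 := vl_prod hW h12 h13 h23 (Affine.Point.some _ _ n2)
    have hv3 := vl_prod hW h12 h13 h23 (Affine.Point.some _ _ n3)
    have hv12 : IsSquare ((vl (W := W) (Affine.Point.some _ _ n1) e1 ((e1 - e2) * (e1 - e3)) *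
        vl (W := W) (Affine.Point.some _ _ n2) e1 ((e1 - e2) * (e1 - e3))) *
        (vl (W := W) (Affine.Point.some _ _ n1) e2 ((e2 - e1) * (e2 - e3)) *
        vl (W := W) (Affine.Point.some _ _ n2) e2 ((e2 - e1) * (e2 - e3))) *
        (vl (W := W) (Affine.Point.some _ _ n1) e3 ((e3 - e1) * (e3 - e2)) *
        vl (W := W) (Affine.Point.some _ _ n2) e3 ((e3 - e1) * (e3 - e2)))) := by
      obtain ⟨r, hr⟩ := hv1.mul hv2
      exact ⟨r, by rw [← hr]; ring⟩
    have val : ∀ e k : K, (e - e1) * (e - e2) * (e - e3) = 0 → m * e + c ≠ 0 →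
        IsSquare (vl (W := W) (Affine.Point.some _ _ n3) e k *
          (vl (W := W) (Affine.Point.some _ _ n1) e k *
          vl (W := W) (Affine.Point.some _ _ n2) e k)) := by
      intro e k he hne
      have h3 : (x1 - e) * (x2 - e) * (x3 - e) = (m * e + c) ^ 2 := by
        have := key e
        rw [he] at this
        linear_combination this
      have h4 : (x1 - e) * (x2 - e) * (x3 - e) ≠ 0 := by
        rw [h3]; exact pow_ne_zero 2 hne
      have a3 : x3 - e ≠ 0 := right_ne_zero_of_mul h4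
      have a1 : x1 - e ≠ 0 := left_ne_zero_of_mul (left_ne_zero_of_mul h4)
      have a2 : x2 - e ≠ 0 := right_ne_zero_of_mul (left_ne_zero_of_mul h4)
      rw [vl_some n1 _ _ a1, vl_some n2 _ _ a2, vl_some n3 _ _ a3]
      exact ⟨m * e + c, by linear_combination h3⟩
    have f1 : (e1 - e1) * (e1 - e2) * (e1 - e3) = 0 := by ring
    have f2 : (e2 - e1) * (e2 - e2) * (e2 - e3) = 0 := by ring
    have f3 : (e3 - e1) * (e3 - e2) * (e3 - e3) = 0 := by ring
    have two : ∀ a b : K, a ≠ b → m * a + c = 0 → m * b + c = 0 → False := by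
      intro a b hab ha hb
      have hm0 : m = 0 := by
        have : m * (a - b) = 0 := by linear_combination ha - hb
        exact (mul_eq_zero.1 this).resolve_right (sub_ne_zero.2 hab)
      have hc0 : c = 0 := by rw [hm0] at ha; linear_combination ha
      exact hy ⟨by rw [l1, hm0, hc0]; ring, by rw [l2, hm0, hc0]; ring⟩
    have v1 : ∀ P : W.toAffine.Point, vl P e1 ((e1 - e2) * (e1 - e3)) ≠ 0 :=
      fun P => vl_ne P c1
    have v2 : ∀ P : W.toAffine.Point, vl P e2 ((e2 - e1) * (e2 - e3)) ≠ 0 :=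
      fun P => vl_ne P c2
    have v3 : ∀ P : W.toAffine.Point, vl P e3 ((e3 - e1) * (e3 - e2)) ≠ 0 :=
      fun P => vl_ne P c3
    unfold Cls
    by_cases g1 : m * e1 + c = 0
    · have g2 : m * e2 + c ≠ 0 := fun h => two _ _ h12 g1 h
      have g3 : m * e3 + c ≠ 0 := fun h => two _ _ h13 g1 h
      have k2 := val e2 ((e2 - e1) * (e2 - e3)) f2 g2
      have k3 := val e3 ((e3 - e1) * (e3 - e2)) f3 g3
      refine ⟨third (v2 _) (v3 _) (mul_ne_zero (v2 _) (v2 _)) (mul_ne_zero (v3 _) (v3 _))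
        k2 k3 ?_ ?_, k2, k3⟩
      · obtain ⟨r, hr⟩ := hv3
        exact ⟨r, by rw [← hr]; ring⟩
      · obtain ⟨r, hr⟩ := hv12
        exact ⟨r, by rw [← hr]; ring⟩
    · have k1 := val e1 ((e1 - e2) * (e1 - e3)) f1 g1
      by_cases g2 : m * e2 + c = 0
      · have g3 : m * e3 + c ≠ 0 := fun h => two _ _ h23 g2 h
        have k3 := val e3 ((e3 - e1) * (e3 - e2)) f3 g3
        refine ⟨k1, third (v1 _) (v3 _) (mul_ne_zero (v1 _) (v1 _))
          (mul_ne_zero (v3 _) (v3 _)) k1 k3 ?_ ?_, k3⟩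
        · obtain ⟨r, hr⟩ := hv3
          exact ⟨r, by rw [← hr]; ring⟩
        · obtain ⟨r, hr⟩ := hv12
          exact ⟨r, by rw [← hr]; ring⟩
      · have k2 := val e2 ((e2 - e1) * (e2 - e3)) f2 g2
        exact ⟨k1, k2, third (v1 _) (v2 _) (mul_ne_zero (v1 _) (v1 _))
          (mul_ne_zero (v2 _) (v2 _)) k1 k2 hv3 hv12⟩

/-- the double of a point -/
theorem dbl_cls [CharZero K] {W : WeierstrassCurve K} {e1 e2 e3 : K}
    (hW : W = crv (-e1) (-e2) (-e3)) (h12 : e1 ≠ e2) (h13 : e1 ≠ e3) (h23 : e2 ≠ e3)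
    {x y x3 y3 : K} (n : W.toAffine.Nonsingular x y) (n3 : W.toAffine.Nonsingular x3 y3)
    (hy : y ≠ 0) {l : K}
    (hl : 2 * y * l = (x - e2) * (x - e3) + (x - e1) * (x - e3) + (x - e1) * (x - e2))
    (hx3 : x3 = l ^ 2 + e1 + e2 + e3 - x - x) : Cls e1 e2 e3
      (Affine.Point.some _ _ n3 : W.toAffine.Point) 1 1 1 := by
  have c1 : (e1 - e2) * (e1 - e3) ≠ 0 := mul_ne_zero (sub_ne_zero.2 h12) (sub_ne_zero.2 h13)
  have c2 : (e2 - e1) * (e2 - e3) ≠ 0 :=
    mul_ne_zero (sub_ne_zero.2 h12.symm) (sub_ne_zero.2 h23)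
  have c3 : (e3 - e1) * (e3 - e2) ≠ 0 :=
    mul_ne_zero (sub_ne_zero.2 h13.symm) (sub_ne_zero.2 h23.symm)
  have E := eqn hW n
  have hne : (x - e1) * (x - e2) * (x - e3) ≠ 0 := by
    rw [← E]; exact pow_ne_zero 2 hy
  have m3 : x - e3 ≠ 0 := right_ne_zero_of_mul hne
  have m1 : x - e1 ≠ 0 := left_ne_zero_of_mul (left_ne_zero_of_mul hne)
  have m2 : x - e2 ≠ 0 := right_ne_zero_of_mul (left_ne_zero_of_mul hne)
  have key : ∀ e : K, (e - e1) * (e - e2) * (e - e3) = 0 → x - e ≠ 0 → IsSquare (x3 - e) := by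
    intro e he hxe
    refine ⟨(l * (e - x) + y) / (x - e), ?_⟩
    field_simp
    rw [hx3]
    linear_combination (-1 : K) * he - E + (x - e) * hl
  have hs : ∀ e k : K, (e - e1) * (e - e2) * (e - e3) = 0 → x - e ≠ 0 → x3 - e ≠ 0 →
      IsSquare (vl (W := W) (Affine.Point.some _ _ n3) e k * 1) := by
    intro e k he hxe h3
    rw [vl_some n3 _ _ h3, mul_one]
    exact key e he hxe
  have f1 : (e1 - e1) * (e1 - e2) * (e1 - e3) = 0 := by ring
  have f2 : (e2 - e1) * (e2 - e2) * (e2 - e3) = 0 := by ring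
  have f3 : (e3 - e1) * (e3 - e2) * (e3 - e3) = 0 := by ring
  have hv3 := vl_prod hW h12 h13 h23 (Affine.Point.some _ _ n3)
  have v1 := vl_ne (W := W) (Affine.Point.some _ _ n3) (e := e1) c1
  have v2 := vl_ne (W := W) (Affine.Point.some _ _ n3) (e := e2) c2
  have v3 := vl_ne (W := W) (Affine.Point.some _ _ n3) (e := e3) c3
  have h1 : IsSquare ((1 : K) * 1 * 1) := ⟨1, by ring⟩
  unfold Cls
  by_cases g1 : x3 - e1 = 0
  · have hx : x3 = e1 := sub_eq_zero.1 g1
    have k2 := hs e2 ((e2 - e1) * (e2 - e3)) f2 m2 (by rw [hx]; exact sub_ne_zero.2 h12)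
    have k3 := hs e3 ((e3 - e1) * (e3 - e2)) f3 m3 (by rw [hx]; exact sub_ne_zero.2 h13)
    refine ⟨third v2 v3 one_ne_zero one_ne_zero k2 k3 ?_ h1, k2, k3⟩
    obtain ⟨r, hr⟩ := hv3
    exact ⟨r, by rw [← hr]; ring⟩
  · have k1 := hs e1 ((e1 - e2) * (e1 - e3)) f1 m1 g1
    by_cases g2 : x3 - e2 = 0
    · have hx : x3 = e2 := sub_eq_zero.1 g2
      have k3 := hs e3 ((e3 - e1) * (e3 - e2)) f3 m3 (by rw [hx]; exact sub_ne_zero.2 h23)
      refine ⟨k1, third v1 v3 one_ne_zero one_ne_zero k1 k3 ?_ h1, k3⟩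
      obtain ⟨r, hr⟩ := hv3
      exact ⟨r, by rw [← hr]; ring⟩
    · have k2 := hs e2 ((e2 - e1) * (e2 - e3)) f2 m2 g2
      exact ⟨k1, k2, third v1 v2 one_ne_zero one_ne_zero k1 k2 hv3 h1⟩

/-- **The classes of a sum of points.** -/
theorem add_cls [CharZero K] [DecidableEq K] {W : WeierstrassCurve K} {e1 e2 e3 : K}
    (hW : W = crv (-e1) (-e2) (-e3)) (h12 : e1 ≠ e2) (h13 : e1 ≠ e3) (h23 : e2 ≠ e3)
    (P Q : W.toAffine.Point) : Cls e1 e2 e3 (P + Q)
      (vl P e1 ((e1 - e2) * (e1 - e3)) * vl Q e1 ((e1 - e2) * (e1 - e3)))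
      (vl P e2 ((e2 - e1) * (e2 - e3)) * vl Q e2 ((e2 - e1) * (e2 - e3)))
      (vl P e3 ((e3 - e1) * (e3 - e2)) * vl Q e3 ((e3 - e1) * (e3 - e2))) := by
  obtain ⟨a1, a3, -⟩ := crv_coef hW
  have a1' : W.toAffine.a₁ = 0 := a1
  have a3' : W.toAffine.a₃ = 0 := a3
  have a2' : W.toAffine.a₂ = -(e1 + e2 + e3) := by
    subst hW
    show -e1 + -e2 + -e3 = _
    ring
  have a4' : W.toAffine.a₄ = e1 * e2 + e1 * e3 + e2 * e3 := by
    subst hW
    show -e1 * -e2 + -e1 * -e3 + -e2 * -e3 = _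
    ring
  rcases P with _ | ⟨x1, y1, n1⟩
  · have h0 : (0 : W.toAffine.Point) + Q = Q := zero_add Q
    refine (?_ : Cls e1 e2 e3 ((0 : W.toAffine.Point) + Q) _ _ _)
    rw [h0]
    refine ⟨?_, ?_, ?_⟩
    · change IsSquare (_ * (1 * _))
      rw [one_mul]; exact ⟨_, rfl⟩
    · change IsSquare (_ * (1 * _))
      rw [one_mul]; exact ⟨_, rfl⟩
    · change IsSquare (_ * (1 * _))
      rw [one_mul]; exact ⟨_, rfl⟩
  · rcases Q with _ | ⟨x2, y2, n2⟩
    · have h0 : (Affine.Point.some x1 y1 n1 : W.toAffine.Point) + 0 =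
        Affine.Point.some x1 y1 n1 := add_zero _
      refine (?_ : Cls e1 e2 e3 ((Affine.Point.some x1 y1 n1 : W.toAffine.Point) + 0) _ _ _)
      rw [h0]
      refine ⟨?_, ?_, ?_⟩
      · change IsSquare (_ * (_ * 1))
        rw [mul_one]; exact ⟨_, rfl⟩
      · change IsSquare (_ * (_ * 1))
        rw [mul_one]; exact ⟨_, rfl⟩
      · change IsSquare (_ * (_ * 1))
        rw [mul_one]; exact ⟨_, rfl⟩
    · by_cases hx : x1 = x2
      · subst hx
        have hv : ∀ e c : K, vl (W := W) (Affine.Point.some _ _ n1) e c =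
            vl (W := W) (Affine.Point.some _ _ n2) e c := fun e c => by
          by_cases h : x1 - e = 0
          · rw [vl_root n1 _ _ h, vl_root n2 _ _ h]
          · rw [vl_some n1 _ _ h, vl_some n2 _ _ h]
        by_cases hy : y1 = W.toAffine.negY x1 y2
        · rw [Affine.Point.add_of_Y_eq rfl hy]
          refine ⟨?_, ?_, ?_⟩
          · rw [vl_zero, one_mul, hv]; exact ⟨_, rfl⟩
          · rw [vl_zero, one_mul, hv]; exact ⟨_, rfl⟩
          · rw [vl_zero, one_mul, hv]; exact ⟨_, rfl⟩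
        · have hyy : y1 = y2 := by
            have E1 := eqn hW n1
            have E2 := eqn hW n2
            have hneg : W.toAffine.negY x1 y2 = -y2 := by
              simp only [Affine.negY, a1', a3']; ring
            rw [hneg] at hy
            have h3 : (y1 - y2) * (y1 + y2) = 0 := by linear_combination E1 - E2
            rcases mul_eq_zero.1 h3 with h4 | h4
            · exact sub_eq_zero.1 h4
            · exact absurd (eq_neg_of_add_eq_zero_left h4) hy
          subst hyy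
          have hneg : W.toAffine.negY x1 y1 = -y1 := by
            simp only [Affine.negY, a1', a3']; ring
          have hy0 : y1 ≠ 0 := by
            rintro rfl
            apply hy
            rw [hneg, neg_zero]
          rw [Affine.Point.add_of_Y_ne hy]
          have hone : Cls e1 e2 e3 (Affine.Point.some _ _
              (Affine.nonsingular_add n1 n2 fun hxy => hy hxy.right) : W.toAffine.Point)
              1 1 1 := by
            refine dbl_cls hW h12 h13 h23 n1 _ hy0 (l := W.toAffine.slope x1 x1 y1 y1) ?_ ?_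
            · rw [Affine.slope_of_Y_ne rfl hy, hneg, a1', a2', a4']
              field_simp
              ring
            · rw [Affine.addX, a1', a2']
              ring
          obtain ⟨k1, k2, k3⟩ := hone
          rw [mul_one] at k1 k2 k3
          refine ⟨?_, ?_, ?_⟩
          · rw [hv]; exact k1.mul ⟨_, rfl⟩
          · rw [hv]; exact k2.mul ⟨_, rfl⟩
          · rw [hv]; exact k3.mul ⟨_, rfl⟩
      · rw [Affine.Point.add_of_X_ne hx]
        refine line_cls hW h12 h13 h23 n1 n2 _ hx ?_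
        rw [Affine.slope_of_X_ne hx, Affine.addX, a1', a2']
        ring

end

end Pool.Agent.Q284.ZC
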