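import Pool.Agent.Q284.ZC.Tr

/-!
# Products of the classes of points
-/

set_option autoImplicit false

open WeierstrassCurve Polynomial

namespace Pool.Agent.Q284.ZC

open Pool.Agent.H437R2.Man.MW (crv crv_eqn crv_nonsing)

open Pool.Agent.Q284.FDQ (vl vl_zero vl_some vl_root vl_ne vl_prod sq_third)

section

variable {K : Type} [Field K]

lemma eqn {W : WeierstrassCurve K} {e1 e2 e3 : K} (hW : W = crv (-e1) (-e2) (-e3)) {x y : K}
    (h : W.toAffine.Nonsingular x y) : y ^ 2 = (x - e1) * (x - e2) * (x - e3) := by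
  have h1 := h.1
  rw [hW] at h1
  have := crv_eqn.mp h1
  linear_combination this

/-- the product of the values at the three points of order two -/
lemma tors3 {W : WeierstrassCurve K} {e1 e2 e3 : K} (h12 : e1 ≠ e2) (h13 : e1 ≠ e3)
    {y1 y2 y3 : K} (n1 : W.toAffine.Nonsingular e1 y1) (n2 : W.toAffine.Nonsingular e2 y2)
    (n3 : W.toAffine.Nonsingular e3 y3) :
    IsSquare (vl (W := W) (Affine.Point.some _ _ n1) e1 ((e1 - e2) * (e1 - e3)) *
      (vl (W := W) (Affine.Point.some _ _ n2) e1 ((e1 - e2) * (e1 - e3)) *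
      vl (W := W) (Affine.Point.some _ _ n3) e1 ((e1 - e2) * (e1 - e3)))) := by
  rw [vl_root n1 _ _ (sub_self _), vl_some n2 _ _ (sub_ne_zero.2 h12.symm),
    vl_some n3 _ _ (sub_ne_zero.2 h13.symm)]
  exact ⟨(e1 - e2) * (e1 - e3), by ring⟩

lemma cls_tors {W : WeierstrassCurve K} {e1 e2 e3 : K} (h12 : e1 ≠ e2) (h13 : e1 ≠ e3)
    (h23 : e2 ≠ e3) {y1 y2 y3 : K} (n1 : W.toAffine.Nonsingular e1 y1)
    (n2 : W.toAffine.Nonsingular e2 y2) (n3 : W.toAffine.Nonsingular e3 y3) :
    Cls (W := W) e1 e2 e3 (Affine.Point.some _ _ n1)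
      (vl (W := W) (Affine.Point.some _ _ n2) e1 ((e1 - e2) * (e1 - e3)) *
      vl (W := W) (Affine.Point.some _ _ n3) e1 ((e1 - e2) * (e1 - e3)))
      (vl (W := W) (Affine.Point.some _ _ n2) e2 ((e2 - e1) * (e2 - e3)) *
      vl (W := W) (Affine.Point.some _ _ n3) e2 ((e2 - e1) * (e2 - e3)))
      (vl (W := W) (Affine.Point.some _ _ n2) e3 ((e3 - e1) * (e3 - e2)) *
      vl (W := W) (Affine.Point.some _ _ n3) e3 ((e3 - e1) * (e3 - e2))) := by
  refine ⟨tors3 h12 h13 n1 n2 n3, ?_, ?_⟩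
  · have := tors3 h12.symm h23 n2 n1 n3
    convert this using 1
    ring
  · have := tors3 h13.symm h23.symm n3 n1 n2
    convert this using 1
    ring

lemma cls_comm {W : WeierstrassCurve K} {e1 e2 e3 a1 a2 a3 b1 b2 b3 : K} {Q : W.toAffine.Point}
    (h : Cls e1 e2 e3 Q (a1 * b1) (a2 * b2) (a3 * b3)) :
    Cls e1 e2 e3 Q (b1 * a1) (b2 * a2) (b3 * a3) := by
  rw [mul_comm b1, mul_comm b2, mul_comm b3]
  exact h

lemma cls_perm12 {W : WeierstrassCurve K} {e1 e2 e3 : K} {P Q S : W.toAffine.Point}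
    (h : Cls e2 e1 e3 S (vl P e2 ((e2 - e1) * (e2 - e3)) * vl Q e2 ((e2 - e1) * (e2 - e3)))
      (vl P e1 ((e1 - e2) * (e1 - e3)) * vl Q e1 ((e1 - e2) * (e1 - e3)))
      (vl P e3 ((e3 - e2) * (e3 - e1)) * vl Q e3 ((e3 - e2) * (e3 - e1)))) :
    Cls e1 e2 e3 S (vl P e1 ((e1 - e2) * (e1 - e3)) * vl Q e1 ((e1 - e2) * (e1 - e3)))
      (vl P e2 ((e2 - e1) * (e2 - e3)) * vl Q e2 ((e2 - e1) * (e2 - e3)))
      (vl P e3 ((e3 - e1) * (e3 - e2)) * vl Q e3 ((e3 - e1) * (e3 - e2))) := by
  obtain ⟨h1, h2, h3⟩ := h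
  rw [mul_comm (e3 - e2) (e3 - e1)] at h3
  exact ⟨h2, h1, h3⟩

lemma cls_perm23 {W : WeierstrassCurve K} {e1 e2 e3 : K} {P Q S : W.toAffine.Point}
    (h : Cls e1 e3 e2 S (vl P e1 ((e1 - e3) * (e1 - e2)) * vl Q e1 ((e1 - e3) * (e1 - e2)))
      (vl P e3 ((e3 - e1) * (e3 - e2)) * vl Q e3 ((e3 - e1) * (e3 - e2)))
      (vl P e2 ((e2 - e1) * (e2 - e3)) * vl Q e2 ((e2 - e1) * (e2 - e3)))) :
    Cls e1 e2 e3 S (vl P e1 ((e1 - e2) * (e1 - e3)) * vl Q e1 ((e1 - e2) * (e1 - e3)))
      (vl P e2 ((e2 - e1) * (e2 - e3)) * vl Q e2 ((e2 - e1) * (e2 - e3)))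
      (vl P e3 ((e3 - e1) * (e3 - e2)) * vl Q e3 ((e3 - e1) * (e3 - e2))) := by
  obtain ⟨h1, h2, h3⟩ := h
  rw [mul_comm (e1 - e3) (e1 - e2)] at h1
  exact ⟨h1, h3, h2⟩

/-- two different points of order two, the first with abscissa `e1`, the second with abscissa `e2` -/
lemma mul_tt [CharZero K] {W : WeierstrassCurve K} {e1 e2 e3 : K}
    (hW : W = crv (-e1) (-e2) (-e3)) (h12 : e1 ≠ e2) (h13 : e1 ≠ e3) (h23 : e2 ≠ e3)
    {x1 y1 x2 y2 : K} (n1 : W.toAffine.Nonsingular x1 y1) (n2 : W.toAffine.Nonsingular x2 y2)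
    (hx1 : x1 = e1) (hx2 : x2 = e2) : ∃ S : W.toAffine.Point, Cls e1 e2 e3 S
      (vl (W := W) (Affine.Point.some _ _ n1) e1 ((e1 - e2) * (e1 - e3)) *
      vl (W := W) (Affine.Point.some _ _ n2) e1 ((e1 - e2) * (e1 - e3)))
      (vl (W := W) (Affine.Point.some _ _ n1) e2 ((e2 - e1) * (e2 - e3)) *
      vl (W := W) (Affine.Point.some _ _ n2) e2 ((e2 - e1) * (e2 - e3)))
      (vl (W := W) (Affine.Point.some _ _ n1) e3 ((e3 - e1) * (e3 - e2)) *
      vl (W := W) (Affine.Point.some _ _ n2) e3 ((e3 - e1) * (e3 - e2))) := by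
  subst hx1 hx2
  have h3 : (0 : K) ^ 2 = (e3 - x1) * (e3 - x2) * (e3 - e3) := by ring
  have n3 := mk_pt hW h12 h13 h23 h3
  refine ⟨Affine.Point.some _ _ n3, ?_, ?_, ?_⟩
  · have := tors3 (W := W) h12 h13 n1 n2 n3
    convert this using 1
    ring
  · have := tors3 (W := W) h12.symm h23 n2 n1 n3
    convert this using 1
    ring
  · have := tors3 (W := W) h13.symm h23.symm n3 n1 n2
    convert this using 1

open Classical in
/-- **The product of the classes of two points.** -/
theorem mul_pt [CharZero K] {W : WeierstrassCurve K} {e1 e2 e3 : K}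
    (hW : W = crv (-e1) (-e2) (-e3)) (h12 : e1 ≠ e2) (h13 : e1 ≠ e3) (h23 : e2 ≠ e3)
    (P Q : W.toAffine.Point) : ∃ S : W.toAffine.Point, Cls e1 e2 e3 S
      (vl P e1 ((e1 - e2) * (e1 - e3)) * vl Q e1 ((e1 - e2) * (e1 - e3)))
      (vl P e2 ((e2 - e1) * (e2 - e3)) * vl Q e2 ((e2 - e1) * (e2 - e3)))
      (vl P e3 ((e3 - e1) * (e3 - e2)) * vl Q e3 ((e3 - e1) * (e3 - e2))) := by
  have c1 : (e1 - e2) * (e1 - e3) ≠ 0 := mul_ne_zero (sub_ne_zero.2 h12) (sub_ne_zero.2 h13)
  have c2 : (e2 - e1) * (e2 - e3) ≠ 0 :=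
    mul_ne_zero (sub_ne_zero.2 h12.symm) (sub_ne_zero.2 h23)
  have c3 : (e3 - e1) * (e3 - e2) ≠ 0 :=
    mul_ne_zero (sub_ne_zero.2 h13.symm) (sub_ne_zero.2 h23.symm)
  rcases P with _ | ⟨x1, y1, n1⟩
  · refine ⟨Q, ?_, ?_, ?_⟩
    · change IsSquare (_ * (1 * _))
      rw [one_mul]; exact ⟨_, rfl⟩
    · change IsSquare (_ * (1 * _))
      rw [one_mul]; exact ⟨_, rfl⟩
    · change IsSquare (_ * (1 * _))
      rw [one_mul]; exact ⟨_, rfl⟩
  · rcases Q with _ | ⟨x2, y2, n2⟩
    · refine ⟨Affine.Point.some _ _ n1, ?_, ?_, ?_⟩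
      · change IsSquare (_ * (_ * 1))
        rw [mul_one]; exact ⟨_, rfl⟩
      · change IsSquare (_ * (_ * 1))
        rw [mul_one]; exact ⟨_, rfl⟩
      · change IsSquare (_ * (_ * 1))
        rw [mul_one]; exact ⟨_, rfl⟩
    · have E1 := eqn hW n1
      have E2 := eqn hW n2
      by_cases hx : x1 = x2
      · subst hx
        have hv : ∀ e c : K, vl (W := W) (Affine.Point.some _ _ n1) e c =
            vl (W := W) (Affine.Point.some _ _ n2) e c := fun e c => by
          by_cases h : x1 - e = 0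
          · rw [vl_root n1 _ _ h, vl_root n2 _ _ h]
          · rw [vl_some n1 _ _ h, vl_some n2 _ _ h]
        refine ⟨0, ?_, ?_, ?_⟩
        · rw [vl_zero, one_mul, hv]; exact ⟨_, rfl⟩
        · rw [vl_zero, one_mul, hv]; exact ⟨_, rfl⟩
        · rw [vl_zero, one_mul, hv]; exact ⟨_, rfl⟩
      · by_cases hy : y1 = 0 ∧ y2 = 0
        · obtain ⟨hy1, hy2⟩ := hy
          rw [hy1] at E1
          rw [hy2] at E2
          have hx1 : x1 = e1 ∨ x1 = e2 ∨ x1 = e3 := by
            have h0 : (x1 - e1) * (x1 - e2) * (x1 - e3) = 0 := by rw [← E1]; ring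
            rcases mul_eq_zero.1 h0 with h0 | h0
            · rcases mul_eq_zero.1 h0 with h0 | h0
              · exact Or.inl (sub_eq_zero.1 h0)
              · exact Or.inr (Or.inl (sub_eq_zero.1 h0))
            · exact Or.inr (Or.inr (sub_eq_zero.1 h0))
          have hx2 : x2 = e1 ∨ x2 = e2 ∨ x2 = e3 := by
            have h0 : (x2 - e1) * (x2 - e2) * (x2 - e3) = 0 := by rw [← E2]; ring
            rcases mul_eq_zero.1 h0 with h0 | h0
            · rcases mul_eq_zero.1 h0 with h0 | h0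
              · exact Or.inl (sub_eq_zero.1 h0)
              · exact Or.inr (Or.inl (sub_eq_zero.1 h0))
            · exact Or.inr (Or.inr (sub_eq_zero.1 h0))
          have W12 : W = crv (-e2) (-e1) (-e3) := hW.trans (Pool.Agent.Q284.FDQ.perm12 _ _ _)
          have W23 : W = crv (-e1) (-e3) (-e2) := hW.trans (Pool.Agent.Q284.FDQ.perm23 _ _ _)
          have W13 : W = crv (-e3) (-e2) (-e1) := hW.trans (Pool.Agent.Q284.FDQ.perm13 _ _ _)
          rcases hx1 with hx1 | hx1 | hx1
          · rcases hx2 with hx2 | hx2 | hx2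
            · exact absurd (hx1.trans hx2.symm) hx
            · exact mul_tt hW h12 h13 h23 n1 n2 hx1 hx2
            · obtain ⟨S, hS⟩ := mul_tt W23 h13 h12 h23.symm n1 n2 hx1 hx2
              exact ⟨S, cls_perm23 hS⟩
          · rcases hx2 with hx2 | hx2 | hx2
            · obtain ⟨S, hS⟩ := mul_tt W12 h12.symm h23 h13 n1 n2 hx1 hx2
              exact ⟨S, cls_perm12 hS⟩
            · exact absurd (hx1.trans hx2.symm) hx
            · -- e2, e3
              obtain ⟨S, hS⟩ := mul_tt (W12.trans (Pool.Agent.Q284.FDQ.perm23 _ _ _)) h23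
                h12.symm h13.symm n1 n2 hx1 hx2
              exact ⟨S, cls_perm12 (cls_perm23 hS)⟩
          · rcases hx2 with hx2 | hx2 | hx2
            · -- e3, e1
              obtain ⟨S, hS⟩ := mul_tt (W23.trans (Pool.Agent.Q284.FDQ.perm12 _ _ _)) h13.symm
                h23.symm h12 n1 n2 hx1 hx2
              exact ⟨S, cls_perm23 (cls_perm12 hS)⟩
            · -- e3, e2
              obtain ⟨S, hS⟩ := mul_tt W13 h23.symm h13.symm h12.symm n1 n2 hx1 hx2
              refine ⟨S, ?_⟩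
              obtain ⟨k1, k2, k3⟩ := hS
              rw [mul_comm (e3 - e2) (e3 - e1)] at k1
              rw [mul_comm (e2 - e3) (e2 - e1)] at k2
              rw [mul_comm (e1 - e3) (e1 - e2)] at k3
              exact ⟨k3, k2, k1⟩
            · exact absurd (hx1.trans hx2.symm) hx
        · -- the line through the two points
          have hx' : x1 - x2 ≠ 0 := sub_ne_zero.2 hx
          obtain ⟨m, hm⟩ : ∃ m : K, m = (y1 - y2) / (x1 - x2) := ⟨_, rfl⟩
          have hm' : m * (x1 - x2) = y1 - y2 := by rw [hm]; field_simp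
          obtain ⟨c, hc⟩ : ∃ c : K, c = y1 - m * x1 := ⟨_, rfl⟩
          obtain ⟨x3, hx3⟩ : ∃ x3 : K, x3 = m ^ 2 + e1 + e2 + e3 - x1 - x2 := ⟨_, rfl⟩
          have l1 : y1 = m * x1 + c := by rw [hc]; ring
          have l2 : y2 = m * x2 + c := by rw [hc]; linear_combination hm'
          -- f(x) - (m x + c)² = (x - x1) (x - x2) (x - x3)
          have key : ∀ x : K, (x - e1) * (x - e2) * (x - e3) - (m * x + c) ^ 2 =
              (x - x1) * (x - x2) * (x - x3) := by
            -- the difference is of degree at most one and vanishes at x1, x2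
            have g1 : (x1 - e1) * (x1 - e2) * (x1 - e3) - (m * x1 + c) ^ 2 = 0 := by
              rw [← l1, ← E1]; ring
            have g2 : (x2 - e1) * (x2 - e2) * (x2 - e3) - (m * x2 + c) ^ 2 = 0 := by
              rw [← l2, ← E2]; ring
            intro x
            have h3 : (x1 - x2) * ((x - e1) * (x - e2) * (x - e3) - (m * x + c) ^ 2 -
                (x - x1) * (x - x2) * (x - x3)) = 0 := by
              rw [hx3]
              linear_combination (x - x2) * g1 - (x - x1) * g2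
            rcases mul_eq_zero.1 h3 with h4 | h4
            · exact absurd h4 hx'
            · exact sub_eq_zero.1 h4
          have E3 : (m * x3 + c) ^ 2 = (x3 - e1) * (x3 - e2) * (x3 - e3) := by
            have := key x3
            rw [sub_self, mul_zero] at this
            exact (sub_eq_zero.1 this).symm
          have n3 := mk_pt hW h12 h13 h23 E3
          have hv1 := vl_prod hW h12 h13 h23 (Affine.Point.some _ _ n1)
          have hv2 := vl_prod hW h12 h13 h23 (Affine.Point.some _ _ n2)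
          have hv3 := vl_prod hW h12 h13 h23 (Affine.Point.some _ _ n3)
          have hv12 : IsSquare ((vl (W := W) (Affine.Point.some _ _ n1) e1 ((e1 - e2) * (e1 - e3)) *
              vl (W := W) (Affine.Point.some _ _ n2) e1 ((e1 - e2) * (e1 - e3))) *
              (vl (W := W) (Affine.Point.some _ _ n1) e2 ((e2 - e1) * (e2 - e3)) *
              vl (W := W) (Affine.Point.some _ _ n2) e2 ((e2 - e1) * (e2 - e3))) *
              (vl (W := W) (Affine.Point.some _ _ n1) e3 ((e3 - e1) * (e3 - e2)) *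
              vl (W := W) (Affine.Point.some _ _ n2) e3 ((e3 - e1) * (e3 - e2)))) := by
            obtain ⟨r, hr⟩ := hv1.mul hv2
            exact ⟨r, by rw [← hr]; ring⟩
          have val : ∀ e k : K, (e - e1) * (e - e2) * (e - e3) = 0 → m * e + c ≠ 0 →
              IsSquare (vl (W := W) (Affine.Point.some _ _ n3) e k *
                (vl (W := W) (Affine.Point.some _ _ n1) e k *
                vl (W := W) (Affine.Point.some _ _ n2) e k)) := by
            intro e k he hne
            have h3 : (x1 - e) * (x2 - e) * (x3 - e) = (m * e + c) ^ 2 := by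
              have := key e
              rw [he] at this
              linear_combination this
            have h4 : (x1 - e) * (x2 - e) * (x3 - e) ≠ 0 := by
              rw [h3]; exact pow_ne_zero 2 hne
            have a3 : x3 - e ≠ 0 := right_ne_zero_of_mul h4
            have a1 : x1 - e ≠ 0 := left_ne_zero_of_mul (left_ne_zero_of_mul h4)
            have a2 : x2 - e ≠ 0 := right_ne_zero_of_mul (left_ne_zero_of_mul h4)
            rw [vl_some n1 _ _ a1, vl_some n2 _ _ a2, vl_some n3 _ _ a3]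
            exact ⟨m * e + c, by linear_combination h3⟩
          have f1 : (e1 - e1) * (e1 - e2) * (e1 - e3) = 0 := by ring
          have f2 : (e2 - e1) * (e2 - e2) * (e2 - e3) = 0 := by ring
          have f3 : (e3 - e1) * (e3 - e2) * (e3 - e3) = 0 := by ring
          have two : ∀ a b : K, a ≠ b → m * a + c = 0 → m * b + c = 0 → False := by
            intro a b hab ha hb
            have hm0 : m = 0 := by
              have : m * (a - b) = 0 := by linear_combination ha - hb
              exact (mul_eq_zero.1 this).resolve_right (sub_ne_zero.2 hab)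
            have hc0 : c = 0 := by rw [hm0] at ha; linear_combination ha
            exact hy ⟨by rw [l1, hm0, hc0]; ring, by rw [l2, hm0, hc0]; ring⟩
          have v1 : ∀ P : W.toAffine.Point, vl P e1 ((e1 - e2) * (e1 - e3)) ≠ 0 :=
            fun P => vl_ne P c1
          have v2 : ∀ P : W.toAffine.Point, vl P e2 ((e2 - e1) * (e2 - e3)) ≠ 0 :=
            fun P => vl_ne P c2
          have v3 : ∀ P : W.toAffine.Point, vl P e3 ((e3 - e1) * (e3 - e2)) ≠ 0 :=
            fun P => vl_ne P c3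
          refine ⟨Affine.Point.some _ _ n3, ?_⟩
          unfold Cls
          by_cases g1 : m * e1 + c = 0
          · have g2 : m * e2 + c ≠ 0 := fun h => two _ _ h12 g1 h
            have g3 : m * e3 + c ≠ 0 := fun h => two _ _ h13 g1 h
            have k2 := val e2 ((e2 - e1) * (e2 - e3)) f2 g2
            have k3 := val e3 ((e3 - e1) * (e3 - e2)) f3 g3
            refine ⟨third (v2 _) (v3 _) (mul_ne_zero (v2 _) (v2 _)) (mul_ne_zero (v3 _) (v3 _))
              k2 k3 ?_ ?_, k2, k3⟩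
            · obtain ⟨r, hr⟩ := hv3
              exact ⟨r, by rw [← hr]; ring⟩
            · obtain ⟨r, hr⟩ := hv12
              exact ⟨r, by rw [← hr]; ring⟩
          · have k1 := val e1 ((e1 - e2) * (e1 - e3)) f1 g1
            by_cases g2 : m * e2 + c = 0
            · have g3 : m * e3 + c ≠ 0 := fun h => two _ _ h23 g2 h
              have k3 := val e3 ((e3 - e1) * (e3 - e2)) f3 g3
              refine ⟨k1, third (v1 _) (v3 _) (mul_ne_zero (v1 _) (v1 _))
                (mul_ne_zero (v3 _) (v3 _)) k1 k3 ?_ ?_, k3⟩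
              · obtain ⟨r, hr⟩ := hv3
                exact ⟨r, by rw [← hr]; ring⟩
              · obtain ⟨r, hr⟩ := hv12
                exact ⟨r, by rw [← hr]; ring⟩
            · have k2 := val e2 ((e2 - e1) * (e2 - e3)) f2 g2
              exact ⟨k1, k2, third (v1 _) (v2 _) (mul_ne_zero (v1 _) (v1 _))
                (mul_ne_zero (v2 _) (v2 _)) k1 k2 hv3 hv12⟩

/-- **The product of classes.** -/
theorem mul_cls [CharZero K] {W : WeierstrassCurve K} {e1 e2 e3 : K}
    (hW : W = crv (-e1) (-e2) (-e3)) (h12 : e1 ≠ e2) (h13 : e1 ≠ e3) (h23 : e2 ≠ e3)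
    {P Q : W.toAffine.Point} {a1 a2 a3 b1 b2 b3 : K} (hP : Cls e1 e2 e3 P a1 a2 a3)
    (hQ : Cls e1 e2 e3 Q b1 b2 b3) :
    ∃ S : W.toAffine.Point, Cls e1 e2 e3 S (a1 * b1) (a2 * b2) (a3 * b3) := by
  have c1 : (e1 - e2) * (e1 - e3) ≠ 0 := mul_ne_zero (sub_ne_zero.2 h12) (sub_ne_zero.2 h13)
  have c2 : (e2 - e1) * (e2 - e3) ≠ 0 :=
    mul_ne_zero (sub_ne_zero.2 h12.symm) (sub_ne_zero.2 h23)
  have c3 : (e3 - e1) * (e3 - e2) ≠ 0 :=
    mul_ne_zero (sub_ne_zero.2 h13.symm) (sub_ne_zero.2 h23.symm)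
  obtain ⟨S, s1, s2, s3⟩ := mul_pt hW h12 h13 h23 P Q
  have comb : ∀ {s p q a b : K}, p ≠ 0 → q ≠ 0 → IsSquare (s * (p * q)) → IsSquare (p * a) →
      IsSquare (q * b) → IsSquare (s * (a * b)) := by
    rintro s p q a b hp hq ⟨r, hr⟩ ⟨t, ht⟩ ⟨u, hu⟩
    refine ⟨r * t * u / (p * q), ?_⟩
    field_simp
    linear_combination (p * a) * (q * b) * hr + (r * r) * (q * b) * ht + (r * r) * (t * t) * hu
  exact ⟨S, comb (vl_ne P c1) (vl_ne Q c1) s1 hP.1 hQ.1, comb (vl_ne P c2) (vl_ne Q c2) s2 hP.2.1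
    hQ.2.1, comb (vl_ne P c3) (vl_ne Q c3) s3 hP.2.2 hQ.2.2⟩

end

end Pool.Agent.Q284.ZC
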