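import Pool.Agent.Q284.FDQ.Glob

/-!
# Norms of the classes of the points over finite extensions
-/

set_option autoImplicit false

open WeierstrassCurve Polynomial IntermediateField

namespace Pool.Agent.Q284.ZC

open Pool.Agent.H437R2.Man.MW (crv crv_eqn crv_nonsing)

open Pool.Agent.Q284.FDQ (vl vl_zero vl_some vl_root vl_ne vl_prod sq_third)

section

variable {K L : Type} [Field K] [Field L] [Algebra K L] [FiniteDimensional K L]

/-- the norm of `θ - e` -/
lemma norm_sub (θ : L) (e : K) :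
    Algebra.norm K (θ - algebraMap K L e) =
      ((-1) ^ (minpoly K θ).natDegree * (minpoly K θ).eval e) ^
        (Module.finrank K L / (minpoly K θ).natDegree) := by
  set x := θ - algebraMap K L e with hx
  have hi : IsIntegral K x := Algebra.IsIntegral.isIntegral x
  have hm : minpoly K x = (minpoly K θ).comp (X + C e) := minpoly.sub_algebraMap θ e
  have hdeg : (minpoly K x).natDegree = (minpoly K θ).natDegree := by
    rw [hm, natDegree_comp, natDegree_X_add_C, mul_one]
  have h1 := Algebra.norm_eq_norm_adjoin K x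
  have h2 := Algebra.PowerBasis.norm_gen_eq_coeff_zero_minpoly (adjoin.powerBasis hi)
  rw [adjoin.powerBasis_gen hi, minpoly_gen, adjoin.powerBasis_dim hi, hdeg] at h2
  have h3 : (minpoly K x).coeff 0 = (minpoly K θ).eval e := by
    rw [hm, coeff_zero_eq_eval_zero, eval_comp]
    simp
  have h4 : Module.finrank K⟮x⟯ L = Module.finrank K L / (minpoly K θ).natDegree := by
    have h5 := Module.finrank_mul_finrank K K⟮x⟯ L
    rw [adjoin.finrank hi, hdeg] at h5
    rw [← h5, Nat.mul_div_cancel_left]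
    exact minpoly.natDegree_pos (Algebra.IsIntegral.isIntegral θ)
  rw [h1, h2, h3, h4]

/-- a square in an extension of odd degree -/
lemma odd_sq (h : Odd (Module.finrank K L)) {a : K} {s : L} (hs : algebraMap K L a = s ^ 2) :
    IsSquare a := by
  obtain ⟨k, hk⟩ := h
  by_cases ha : a = 0
  · exact ⟨0, by rw [ha, mul_zero]⟩
  have h1 : a ^ Module.finrank K L = Algebra.norm K s ^ 2 := by
    rw [← Algebra.norm_algebraMap, hs, map_pow]
  rw [hk] at h1
  refine ⟨Algebra.norm K s / a ^ k, ?_⟩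
  rw [← pow_two, div_pow, ← h1]
  field_simp
  ring

lemma exists_AB (θ η : L) (r s : ℕ) (h : Module.finrank K L < r + s) : ∃ A B : K[X],
    (A ≠ 0 ∨ B ≠ 0) ∧ A.degree < r ∧ B.degree < s ∧ aeval θ A + aeval θ B * η = 0 := by
  let ψ : ∀ n : ℕ, (Fin n → K) →ₗ[K] L := fun n =>
    ((aeval θ).toLinearMap : K[X] →ₗ[K] L) ∘ₗ (degreeLT K n).subtype ∘ₗ
      (degreeLTEquiv K n).symm.toLinearMap
  let φ : ((Fin r → K) × (Fin s → K)) →ₗ[K] L :=
    (ψ r) ∘ₗ LinearMap.fst K _ _ + (LinearMap.mulRight K η) ∘ₗ (ψ s) ∘ₗ LinearMap.snd K _ _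
  have h1 : LinearMap.ker φ ≠ ⊥ := by
    apply LinearMap.ker_ne_bot_of_finrank_lt
    rw [Module.finrank_prod, Module.finrank_fin_fun, Module.finrank_fin_fun]
    exact h
  obtain ⟨⟨a, b⟩, hab, hne⟩ := (Submodule.ne_bot_iff _).1 h1
  refine ⟨(degreeLTEquiv K r).symm a, (degreeLTEquiv K s).symm b, ?_, ?_, ?_, ?_⟩
  · by_contra hcon
    push Not at hcon
    obtain ⟨h2, h3⟩ := hcon
    have h4 : (degreeLTEquiv K r).symm a = 0 := Subtype.ext h2
    have h5 : (degreeLTEquiv K s).symm b = 0 := Subtype.ext h3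
    rw [LinearEquiv.map_eq_zero_iff] at h4 h5
    exact hne (by rw [h4, h5]; rfl)
  · exact mem_degreeLT.1 ((degreeLTEquiv K r).symm a).2
  · exact mem_degreeLT.1 ((degreeLTEquiv K s).symm b).2
  · exact hab

end

section

variable {K L : Type} [Field K] [Field L] [Algebra K L] [FiniteDimensional K L]

lemma cubic_deg (e1 e2 e3 : K) : ((X - C e1) * (X - C e2) * (X - C e3) : K[X]).natDegree = 3 := by
  rw [natDegree_mul (mul_ne_zero (X_sub_C_ne_zero _) (X_sub_C_ne_zero _)) (X_sub_C_ne_zero _),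
    natDegree_mul (X_sub_C_ne_zero _) (X_sub_C_ne_zero _), natDegree_X_sub_C, natDegree_X_sub_C,
    natDegree_X_sub_C]

lemma cubic_monic (e1 e2 e3 : K) : ((X - C e1) * (X - C e2) * (X - C e3) : K[X]).Monic :=
  ((monic_X_sub_C e1).mul (monic_X_sub_C e2)).mul (monic_X_sub_C e3)

/-- the degree and the leading coefficient of `A² - f B²` -/
lemma lead {f A B : K[X]} (hf : f.Monic) (hf3 : f.natDegree = 3) (h : A ≠ 0 ∨ B ≠ 0) {n : ℕ}
    (hA : 2 * A.natDegree ≤ n) (hB : B ≠ 0 → 3 + 2 * B.natDegree ≤ n) :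
    A ^ 2 - f * B ^ 2 ≠ 0 ∧ (A ^ 2 - f * B ^ 2).natDegree ≤ n ∧ ∃ t : K, t ≠ 0 ∧
      (A ^ 2 - f * B ^ 2).leadingCoeff = (-1) ^ (A ^ 2 - f * B ^ 2).natDegree * t ^ 2 := by
  have dA : (A ^ 2).natDegree = 2 * A.natDegree := natDegree_pow A 2
  by_cases hB0 : B = 0
  · have hA0 : A ≠ 0 := h.resolve_right (not_not.2 hB0)
    have e : A ^ 2 - f * B ^ 2 = A ^ 2 := by rw [hB0]; ring
    rw [e]
    refine ⟨pow_ne_zero 2 hA0, by rw [dA]; exact hA, A.leadingCoeff,
      leadingCoeff_ne_zero.2 hA0, ?_⟩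
    rw [dA, leadingCoeff_pow, pow_mul]
    norm_num
  · have hf0 : f ≠ 0 := hf.ne_zero
    have dB : (f * B ^ 2).natDegree = 3 + 2 * B.natDegree := by
      rw [natDegree_mul hf0 (pow_ne_zero 2 hB0), hf3, natDegree_pow]
    have lB : (f * B ^ 2).leadingCoeff = B.leadingCoeff ^ 2 := by
      rw [leadingCoeff_mul, hf.leadingCoeff, one_mul, leadingCoeff_pow]
    have hBn : f * B ^ 2 ≠ 0 := mul_ne_zero hf0 (pow_ne_zero 2 hB0)
    rcases lt_or_ge (f * B ^ 2).natDegree (A ^ 2).natDegree with hlt | hge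
    · have hA0 : A ^ 2 ≠ 0 := by
        rintro h0
        rw [h0] at hlt
        simp at hlt
      have hd : (A ^ 2 - f * B ^ 2).natDegree = 2 * A.natDegree := by
        rw [natDegree_sub_eq_left_of_natDegree_lt hlt, dA]
      have hl : (A ^ 2 - f * B ^ 2).leadingCoeff = A.leadingCoeff ^ 2 := by
        rw [leadingCoeff_sub_of_degree_lt, leadingCoeff_pow]
        rw [degree_eq_natDegree hA0, degree_eq_natDegree hBn]
        exact_mod_cast hlt
      refine ⟨?_, by rw [hd]; exact hA, A.leadingCoeff, ?_, ?_⟩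
      · intro h0
        rw [h0] at hd
        rw [natDegree_zero] at hd
        omega
      · rw [leadingCoeff_ne_zero]
        rintro rfl
        exact hA0 (by ring)
      · rw [hd, hl, pow_mul]
        norm_num
    · have hlt : (A ^ 2).natDegree < (f * B ^ 2).natDegree := by
        rw [dA, dB] at hge ⊢
        omega
      have hd : (A ^ 2 - f * B ^ 2).natDegree = 3 + 2 * B.natDegree := by
        rw [natDegree_sub_eq_right_of_natDegree_lt hlt, dB]
      have hl : (A ^ 2 - f * B ^ 2).leadingCoeff = -B.leadingCoeff ^ 2 := by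
        rw [leadingCoeff_sub_of_degree_lt', lB]
        by_cases hA0 : A ^ 2 = 0
        · rw [hA0, degree_zero]
          exact bot_lt_iff_ne_bot.2 (degree_ne_bot.2 hBn)
        · rw [degree_eq_natDegree hA0, degree_eq_natDegree hBn]
          exact_mod_cast hlt
      refine ⟨?_, by rw [hd]; exact hB hB0, B.leadingCoeff, leadingCoeff_ne_zero.2 hB0, ?_⟩
      · intro h0
        rw [h0] at hd
        rw [natDegree_zero] at hd
        omega
      · rw [hd, hl, pow_add, pow_mul]
        norm_num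

/-- the norm of the function -/
lemma rr_core {f : K[X]} (hf : f.Monic) (hf3 : f.natDegree = 3) {θ η : L}
    (hη : η ^ 2 = aeval θ f) (hd : (minpoly K θ).natDegree = Module.finrank K L) :
    ∃ A B l : K[X], A ^ 2 - f * B ^ 2 = minpoly K θ * l ∧ l.natDegree ≤ 1 ∧
      ∃ t : K, t ≠ 0 ∧ l.leadingCoeff = (-1) ^ (Module.finrank K L + l.natDegree) * t ^ 2 := by
  set d := Module.finrank K L with hdd
  have hd0 : 0 < d := Module.finrank_pos
  obtain ⟨A, B, hne, hA, hB, h0⟩ := exists_AB (K := K) θ η ((d + 1) / 2 + 1) (d / 2) (by omega)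
  have h1 : aeval θ (A ^ 2 - f * B ^ 2) = 0 := by
    rw [map_sub, map_mul, map_pow, map_pow, ← hη]
    linear_combination (aeval θ A - aeval θ B * η) * h0
  obtain ⟨l, hl⟩ := minpoly.dvd K θ h1
  have hA' : 2 * A.natDegree ≤ d + 1 := by
    by_cases hA0 : A = 0
    · rw [hA0, natDegree_zero]; omega
    · have := (natDegree_lt_iff_degree_lt hA0).2 hA
      omega
  have hB' : B ≠ 0 → 3 + 2 * B.natDegree ≤ d + 1 := by
    intro hB0
    have := (natDegree_lt_iff_degree_lt hB0).2 hB
    omega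
  obtain ⟨g1, g2, t, g3, g4⟩ := lead hf hf3 hne hA' hB'
  have hpm : (minpoly K θ).Monic := minpoly.monic (Algebra.IsIntegral.isIntegral θ)
  have hl0 : l ≠ 0 := by
    rintro rfl
    rw [mul_zero] at hl
    exact g1 hl
  have hdeg : (A ^ 2 - f * B ^ 2).natDegree = d + l.natDegree := by
    rw [hl, natDegree_mul hpm.ne_zero hl0, hd]
  refine ⟨A, B, l, hl, by omega, t, g3, ?_⟩
  rw [← hdeg, ← g4, hl, leadingCoeff_mul, hpm.leadingCoeff, one_mul]

end

end Pool.Agent.Q284.ZC
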