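import Pool.Agent.Q284.ZC.Rr

/-!
# The trace of a point: the classes are the norms
-/

set_option autoImplicit false

open WeierstrassCurve Polynomial IntermediateField

namespace Pool.Agent.Q284.ZC

open Pool.Agent.H437R2.Man.MW (crv crv_eqn crv_nonsing)

open Pool.Agent.Q284.FDQ (vl vl_zero vl_some vl_root vl_ne vl_prod sq_third)

section

variable {K : Type} [Field K]

/-- the point with given coordinates -/
lemma mk_pt [CharZero K] {W : WeierstrassCurve K} {e1 e2 e3 : K} (hW : W = crv (-e1) (-e2) (-e3))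
    (h12 : e1 ≠ e2) (h13 : e1 ≠ e3) (h23 : e2 ≠ e3) {x y : K}
    (h : y ^ 2 = (x - e1) * (x - e2) * (x - e3)) : W.toAffine.Nonsingular x y := by
  rw [hW]
  apply crv_nonsing
  · intro h; exact h12 (neg_injective h)
  · intro h; exact h13 (neg_injective h)
  · intro h; exact h23 (neg_injective h)
  · rw [h]; ring

/-- the three classes of a point -/
def Cls {W : WeierstrassCurve K} (e1 e2 e3 : K) (Q : W.toAffine.Point) (g1 g2 g3 : K) : Prop :=
  IsSquare (vl Q e1 ((e1 - e2) * (e1 - e3)) * g1) ∧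
  IsSquare (vl Q e2 ((e2 - e1) * (e2 - e3)) * g2) ∧
  IsSquare (vl Q e3 ((e3 - e1) * (e3 - e2)) * g3)

lemma cls_zero {W : WeierstrassCurve K} {e1 e2 e3 g1 g2 g3 : K} (h1 : IsSquare g1)
    (h2 : IsSquare g2) (h3 : IsSquare g3) : Cls (W := W) e1 e2 e3 0 g1 g2 g3 := by
  unfold Cls
  rw [vl_zero, vl_zero, vl_zero, one_mul, one_mul, one_mul]
  exact ⟨h1, h2, h3⟩

/-- the third class from the two others -/
lemma third {v1 v2 v3 g1 g2 g3 : K} (hv1 : v1 ≠ 0) (hv2 : v2 ≠ 0) (hg1 : g1 ≠ 0) (hg2 : g2 ≠ 0)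
    (h1 : IsSquare (v1 * g1)) (h2 : IsSquare (v2 * g2)) (hv : IsSquare (v1 * v2 * v3))
    (hg : IsSquare (g1 * g2 * g3)) : IsSquare (v3 * g3) :=
  sq_third hv1 hv2 hg1 hg2 h1 h2 hv hg

end

section

variable {K L : Type} [Field K] [CharZero K] [Field L] [Algebra K L] [FiniteDimensional K L]

open Classical in
/-- **The point of an extension generated by its abscissa.** -/
theorem rr {W : WeierstrassCurve K} {e1 e2 e3 : K} (hW : W = crv (-e1) (-e2) (-e3))
    (h12 : e1 ≠ e2) (h13 : e1 ≠ e3) (h23 : e2 ≠ e3) {θ η : L}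
    (hη : η ^ 2 = (θ - algebraMap K L e1) * (θ - algebraMap K L e2) * (θ - algebraMap K L e3))
    (hd : (minpoly K θ).natDegree = Module.finrank K L) (h2 : 2 ≤ Module.finrank K L) :
    ∃ Q : W.toAffine.Point, Cls e1 e2 e3 Q
      ((-1) ^ (minpoly K θ).natDegree * (minpoly K θ).eval e1)
      ((-1) ^ (minpoly K θ).natDegree * (minpoly K θ).eval e2)
      ((-1) ^ (minpoly K θ).natDegree * (minpoly K θ).eval e3) := by
  set f : K[X] := (X - C e1) * (X - C e2) * (X - C e3) with hf
  have hηf : η ^ 2 = aeval θ f := by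
    rw [hη, hf]
    simp
  obtain ⟨A, B, l, h, hl, t, ht, hlead⟩ := rr_core (cubic_monic e1 e2 e3) (cubic_deg e1 e2 e3)
    hηf hd
  rw [← hf] at h
  have hirr : Irreducible (minpoly K θ) := minpoly.irreducible (Algebra.IsIntegral.isIntegral θ)
  have hroot : ∀ x : K, (minpoly K θ).eval x ≠ 0 := by
    intro x hx
    have h3 : (minpoly K θ).degree = 1 := degree_eq_one_of_irreducible_of_root hirr (IsRoot.def.2 hx)
    have h4 : (minpoly K θ).natDegree = 1 := natDegree_eq_of_degree_eq_some h3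
    omega
  obtain ⟨p, hp⟩ : ∃ p : K[X], p = minpoly K θ := ⟨_, rfl⟩
  rw [← hp] at h hirr hroot hd ⊢
  set d := Module.finrank K L with hdd
  rw [hd]
  have hfe : ∀ x, f.eval x = (x - e1) * (x - e2) * (x - e3) := by
    intro x
    rw [hf]; simp
  have hev : ∀ x, (A.eval x) ^ 2 - f.eval x * (B.eval x) ^ 2 = p.eval x * l.eval x := by
    intro x
    have := congrArg (eval x) h
    simpa using this
  -- the product of the norms
  have hprod : IsSquare ((-1) ^ d * p.eval e1 * ((-1) ^ d * p.eval e2) *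
      ((-1) ^ d * p.eval e3)) := by
    have hN := congrArg (Algebra.norm K) hη
    rw [map_mul, map_mul, map_pow, norm_sub, norm_sub, norm_sub, ← hp, hd, ← hdd,
      Nat.div_self (by omega), pow_one, pow_one, pow_one] at hN
    exact ⟨Algebra.norm K η, by rw [← hN]; ring⟩
  have hs : ((-1 : K) ^ d) * (-1) ^ d = 1 := by
    rw [← mul_pow]; norm_num
  have hs0 : ((-1 : K) ^ d) ≠ 0 := pow_ne_zero _ (by norm_num)
  rcases Nat.le_one_iff_eq_zero_or_eq_one.1 hl with hl0 | hl1
  · -- no further zero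
    obtain ⟨c, hc⟩ := natDegree_eq_zero.1 hl0
    have hc' : c = (-1) ^ d * t ^ 2 := by
      rw [hl0, add_zero, ← hc, leadingCoeff_C] at hlead
      exact hlead
    have key : ∀ x, f.eval x = 0 → IsSquare ((-1) ^ d * p.eval x) := by
      intro x hx
      have h3 := hev x
      rw [hx, ← hc, eval_C, hc'] at h3
      refine ⟨A.eval x / t, ?_⟩
      field_simp
      linear_combination -h3
    refine ⟨0, cls_zero (key e1 ?_) (key e2 ?_) (key e3 ?_)⟩ <;>
    · rw [hfe]; ring
  · -- one more zero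
    obtain ⟨c, b, hc0, hcb⟩ : ∃ c b : K, c ≠ 0 ∧ l = C c * X + C b := by
      obtain ⟨c, b, h4⟩ := exists_eq_X_add_C_of_natDegree_le_one hl1.le
      refine ⟨c, b, ?_, h4⟩
      rintro rfl
      rw [h4] at hl1
      simp at hl1
    have hcl : c = (-1) ^ (d + 1) * t ^ 2 := by
      rw [hl1] at hlead
      rw [← hlead, hcb, leadingCoeff_linear hc0]
    obtain ⟨x0, hx0⟩ : ∃ x0 : K, x0 = -b / c := ⟨_, rfl⟩
    have hle : ∀ x, l.eval x = c * (x - x0) := by
      intro x
      rw [hcb, hx0]
      simp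
      field_simp
      ring
    have hl' : l = C c * (X - C x0) := by
      rw [hcb, hx0, mul_sub, ← C_mul]
      have : c * (-b / c) = -b := by field_simp
      rw [this, C_neg]
      ring
    have hc' : c = -((-1) ^ d * t ^ 2) := by
      rw [hcl, pow_succ]; ring
    -- the values at the roots
    have key : ∀ x, f.eval x = 0 → IsSquare ((x0 - x) * ((-1) ^ d * p.eval x)) := by
      intro x hx
      have h3 := hev x
      rw [hx, hle, hc'] at h3
      refine ⟨A.eval x / t, ?_⟩
      field_simp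
      linear_combination -h3
    have hB0 : B.eval x0 ≠ 0 := by
      intro hB
      have h3 := hev x0
      rw [hle, hB, sub_self] at h3
      have hA : A.eval x0 = 0 := by
        have : A.eval x0 ^ 2 = 0 := by linear_combination h3
        exact pow_eq_zero_iff two_ne_zero |>.1 this
      obtain ⟨A', hA'⟩ := dvd_iff_isRoot.2 (IsRoot.def.2 hA)
      obtain ⟨B', hB'⟩ := dvd_iff_isRoot.2 (IsRoot.def.2 hB)
      rw [hA', hB', hl'] at h
      have h4 : (X - C x0) * (A' ^ 2 - f * B' ^ 2) = p * C c := by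
        apply mul_left_cancel₀ (X_sub_C_ne_zero x0)
        linear_combination h
      have h5 := congrArg (eval x0) h4
      simp at h5
      rcases h5 with h5 | h5
      · exact hroot x0 h5
      · exact hc0 h5
    have hy : (A.eval x0 / B.eval x0) ^ 2 = (x0 - e1) * (x0 - e2) * (x0 - e3) := by
      have h3 := hev x0
      rw [hle, sub_self, hfe] at h3
      field_simp
      linear_combination h3
    have hns := mk_pt hW h12 h13 h23 hy
    have hg : ∀ x, (-1) ^ d * p.eval x ≠ 0 := fun x => mul_ne_zero hs0 (hroot x)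
    have hfi : f.eval e1 = 0 ∧ f.eval e2 = 0 ∧ f.eval e3 = 0 := by
      rw [hfe, hfe, hfe]
      refine ⟨?_, ?_, ?_⟩ <;> ring
    have hv := vl_prod hW h12 h13 h23 (Affine.Point.some _ _ hns)
    have c1 : (e1 - e2) * (e1 - e3) ≠ 0 := mul_ne_zero (sub_ne_zero.2 h12) (sub_ne_zero.2 h13)
    have c2 : (e2 - e1) * (e2 - e3) ≠ 0 :=
      mul_ne_zero (sub_ne_zero.2 h12.symm) (sub_ne_zero.2 h23)
    have c3 : (e3 - e1) * (e3 - e2) ≠ 0 :=
      mul_ne_zero (sub_ne_zero.2 h13.symm) (sub_ne_zero.2 h23.symm)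
    have v1 := vl_ne (W := W) (Affine.Point.some _ _ hns) (e := e1) c1
    have v2 := vl_ne (W := W) (Affine.Point.some _ _ hns) (e := e2) c2
    have v3 := vl_ne (W := W) (Affine.Point.some _ _ hns) (e := e3) c3
    have key' : ∀ x c, f.eval x = 0 → x0 - x ≠ 0 →
        IsSquare (vl (W := W) (Affine.Point.some _ _ hns) x c * ((-1) ^ d * p.eval x)) := by
      intro x c hx hx'
      rw [vl_some hns _ _ hx']
      exact key x hx
    refine ⟨Affine.Point.some _ _ hns, ?_⟩
    unfold Cls
    by_cases h1 : x0 - e1 = 0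
    · have hx : x0 = e1 := sub_eq_zero.1 h1
      have k2 := key' e2 ((e2 - e1) * (e2 - e3)) hfi.2.1 (by rw [hx]; exact sub_ne_zero.2 h12)
      have k3 := key' e3 ((e3 - e1) * (e3 - e2)) hfi.2.2 (by rw [hx]; exact sub_ne_zero.2 h13)
      refine ⟨third v2 v3 (hg e2) (hg e3) k2 k3 ?_ ?_, k2, k3⟩
      · convert hv using 1; ring
      · convert hprod using 1; ring
    · have k1 := key' e1 ((e1 - e2) * (e1 - e3)) hfi.1 h1
      by_cases h2' : x0 - e2 = 0
      · have hx : x0 = e2 := sub_eq_zero.1 h2'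
        have k3 := key' e3 ((e3 - e1) * (e3 - e2)) hfi.2.2 (by rw [hx]; exact sub_ne_zero.2 h23)
        refine ⟨k1, third v1 v3 (hg e1) (hg e3) k1 k3 ?_ ?_, k3⟩
        · convert hv using 1; ring
        · convert hprod using 1; ring
      · have k2 := key' e2 ((e2 - e1) * (e2 - e3)) hfi.2.1 h2'
        exact ⟨k1, k2, third v1 v2 (hg e1) (hg e2) k1 k2 hv hprod⟩

/-- the value of `x - e`, modulo squares, at a point with abscissa `θ`, `c` is the value at a zero -/
noncomputable def w (θ : L) (e c : K) : L :=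
  open Classical in if θ - algebraMap K L e = 0 then algebraMap K L c else θ - algebraMap K L e

omit [CharZero K] in
lemma sq_pow_odd {a g : K} {m : ℕ} (hm : Odd m) (h : IsSquare (a * g)) : IsSquare (a * g ^ m) := by
  obtain ⟨k, rfl⟩ := hm
  obtain ⟨r, hr⟩ := h
  exact ⟨r * g ^ k, by rw [pow_succ, pow_mul, ← mul_assoc, mul_comm a, mul_assoc, hr]; ring⟩

omit [CharZero K] in
lemma sq_pow_even {g : K} {m : ℕ} (hm : Even m) : IsSquare (g ^ m) := hm.isSquare_pow g

/-- **The trace of a point**: a point over a finite extension has the trace, the classes of which are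
the norms of the classes. -/
theorem tr {W : WeierstrassCurve K} {e1 e2 e3 : K} (hW : W = crv (-e1) (-e2) (-e3))
    (h12 : e1 ≠ e2) (h13 : e1 ≠ e3) (h23 : e2 ≠ e3) {θ η : L}
    (hη : η ^ 2 = (θ - algebraMap K L e1) * (θ - algebraMap K L e2) * (θ - algebraMap K L e3)) :
    ∃ Q : W.toAffine.Point, Cls e1 e2 e3 Q
      (Algebra.norm K (w θ e1 ((e1 - e2) * (e1 - e3))))
      (Algebra.norm K (w θ e2 ((e2 - e1) * (e2 - e3))))
      (Algebra.norm K (w θ e3 ((e3 - e1) * (e3 - e2)))) := by
  classical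
  by_cases hθ : ∃ θ0 : K, algebraMap K L θ0 = θ
  · obtain ⟨θ0, rfl⟩ := hθ
    have hw : ∀ e c : K, w (algebraMap K L θ0) e c =
        algebraMap K L (if θ0 - e = 0 then c else θ0 - e) := by
      intro e c
      unfold w
      have : algebraMap K L θ0 - algebraMap K L e = 0 ↔ θ0 - e = 0 := by
        rw [← map_sub, map_eq_zero]
      by_cases h : θ0 - e = 0
      · rw [if_pos h, if_pos (this.2 h)]
      · rw [if_neg h, if_neg (fun h' => h (this.1 h')), map_sub]
    rw [hw, hw, hw, Algebra.norm_algebraMap, Algebra.norm_algebraMap, Algebra.norm_algebraMap]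
    rcases Nat.even_or_odd (Module.finrank K L) with he | ho
    · exact ⟨0, cls_zero (sq_pow_even he) (sq_pow_even he) (sq_pow_even he)⟩
    · obtain ⟨y, hy⟩ : IsSquare ((θ0 - e1) * (θ0 - e2) * (θ0 - e3)) := by
        apply odd_sq ho (s := η)
        rw [hη]
        simp
      have hy' : y ^ 2 = (θ0 - e1) * (θ0 - e2) * (θ0 - e3) := by rw [hy]; ring
      have hns := mk_pt hW h12 h13 h23 hy'
      have hv : ∀ e c : K, vl (W := W) (Affine.Point.some _ _ hns) e c =
          if θ0 - e = 0 then c else θ0 - e := fun e c => by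
        by_cases h : θ0 - e = 0
        · rw [vl_root hns _ _ h, if_pos h]
        · rw [vl_some hns _ _ h, if_neg h]
      refine ⟨Affine.Point.some _ _ hns, ?_⟩
      unfold Cls
      rw [hv, hv, hv]
      exact ⟨sq_pow_odd ho ⟨_, rfl⟩, sq_pow_odd ho ⟨_, rfl⟩, sq_pow_odd ho ⟨_, rfl⟩⟩
  · have hne : ∀ e : K, θ - algebraMap K L e ≠ 0 := fun e h => hθ ⟨e, (sub_eq_zero.1 h).symm⟩
    have hw : ∀ e c : K, w θ e c = θ - algebraMap K L e := fun e c => if_neg (hne e)
    rw [hw, hw, hw, norm_sub, norm_sub, norm_sub]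
    rcases Nat.even_or_odd (Module.finrank K L / (minpoly K θ).natDegree) with he | ho
    · exact ⟨0, cls_zero (sq_pow_even he) (sq_pow_even he) (sq_pow_even he)⟩
    · have hi : IsIntegral K θ := Algebra.IsIntegral.isIntegral θ
      have hfin : Module.finrank K K⟮θ⟯ = (minpoly K θ).natDegree := adjoin.finrank hi
      have hfin' : Module.finrank K⟮θ⟯ L =
          Module.finrank K L / (minpoly K θ).natDegree := by
        have h5 := Module.finrank_mul_finrank K K⟮θ⟯ L
        rw [hfin] at h5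
        rw [← h5, Nat.mul_div_cancel_left]
        exact minpoly.natDegree_pos hi
      rw [← hfin'] at ho ⊢
      haveI : FiniteDimensional K⟮θ⟯ L := FiniteDimensional.right K K⟮θ⟯ L
      have hg : algebraMap K⟮θ⟯ L (AdjoinSimple.gen K θ) = θ := AdjoinSimple.algebraMap_gen K θ
      obtain ⟨η', hη'⟩ : IsSquare ((AdjoinSimple.gen K θ - algebraMap K K⟮θ⟯ e1) *
          (AdjoinSimple.gen K θ - algebraMap K K⟮θ⟯ e2) *
          (AdjoinSimple.gen K θ - algebraMap K K⟮θ⟯ e3)) := by
        apply odd_sq ho (s := η)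
        rw [hη, map_mul, map_mul, map_sub, map_sub, map_sub, hg,
          ← IsScalarTower.algebraMap_apply, ← IsScalarTower.algebraMap_apply,
          ← IsScalarTower.algebraMap_apply]
      have hmp : minpoly K (AdjoinSimple.gen K θ) = minpoly K θ := minpoly_gen K θ
      have hd2 : 2 ≤ Module.finrank K K⟮θ⟯ := by
        rw [hfin]
        have h1 := minpoly.natDegree_pos hi
        rcases Nat.lt_or_ge 1 (minpoly K θ).natDegree with h2 | h2
        · exact h2
        · exfalso
          have h3 : (minpoly K θ).natDegree = 1 := le_antisymm h2 h1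
          exact hθ (minpoly.natDegree_eq_one_iff.1 h3)
      obtain ⟨Q, hQ1, hQ2, hQ3⟩ := rr hW h12 h13 h23 (θ := AdjoinSimple.gen K θ) (η := η')
        (by rw [hη']; ring) (by rw [hmp, hfin]) hd2
      rw [hmp] at hQ1 hQ2 hQ3
      exact ⟨Q, sq_pow_odd ho hQ1, sq_pow_odd ho hQ2, sq_pow_odd ho hQ3⟩

end

end Pool.Agent.Q284.ZC
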